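import Mathlib

/-!
# The logarithms of `x ^ ρ + c` and `x + c`

For real `c ≠ 0` and `ρ > 1` the quotient `log (x ^ ρ + c) / log (x + c)` is strictly monotone in `x`
(for `x > 1`, `x + c > 1`): increasing for `c > 0`, decreasing for `c < 0`.
-/

set_option autoImplicit false

namespace Pool.Agent.K4H73.QF

open Real

/-- `log y * log (z + c) < log z * log (y + c)` for `1 < y < z`, `c > 0` -/
lemma log_mul_lt {c y z : ℝ} (hc : 0 < c) (hy : 1 < y) (hyz : y < z) :
    log y * log (z + c) < log z * log (y + c) := by
  have hy0 : 0 < y := by linarith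
  have hz0 : 0 < z := by linarith
  have ly : 0 < log y := log_pos hy
  have lz : log y < log z := log_lt_log hy0 hyz
  have e1 : log (z + c) = log z + log (1 + c / z) := by
    rw [← log_mul hz0.ne' (by positivity)]
    congr 1
    field_simp
  have e2 : log (y + c) = log y + log (1 + c / y) := by
    rw [← log_mul hy0.ne' (by positivity)]
    congr 1
    field_simp
  have h1 : 0 < log (1 + c / z) := log_pos (by have : 0 < c / z := by positivity
                                               linarith)
  have h2 : log (1 + c / z) < log (1 + c / y) := by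
    apply log_lt_log (by positivity)
    have : c / z < c / y := div_lt_div_of_pos_left hc hy0 hyz
    linarith
  rw [e1, e2]
  nlinarith [mul_lt_mul'' lz h2 ly.le h1.le]

/-- the elasticity is increasing for `c > 0` -/
lemma elast_lt {c y z : ℝ} (hc : 0 < c) (hy : 1 < y) (hyz : y < z) :
    y * log y * ((z + c) * log (z + c)) < z * log z * ((y + c) * log (y + c)) := by
  have h1 := log_mul_lt hc hy hyz
  have h2 : y * (z + c) < z * (y + c) := by nlinarith
  have ly : 0 < log y := log_pos hy
  have lzc : 0 < log (z + c) := log_pos (by linarith)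
  have := mul_lt_mul'' h2 h1 (by nlinarith) (by positivity)
  calc y * log y * ((z + c) * log (z + c)) = y * (z + c) * (log y * log (z + c)) := by ring
    _ < z * (y + c) * (log z * log (y + c)) := this
    _ = _ := by ring

/-- the elasticity for any `c ≠ 0`: the sign of `c` -/
lemma elast_neg {c y z : ℝ} (hc : c < 0) (hy : 1 < y + c) (hyz : y < z) :
    z * log z * ((y + c) * log (y + c)) < y * log y * ((z + c) * log (z + c)) := by
  have := elast_lt (c := -c) (y := y + c) (z := z + c) (by linarith) hy (by linarith)
  have e1 : z + c + -c = z := by ring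
  have e2 : y + c + -c = y := by ring
  rw [e1, e2] at this
  linarith

/-- `log log (x ^ ρ + c) - log log (x + c)` -/
noncomputable def G (c ρ x : ℝ) : ℝ := log (log (x ^ ρ + c)) - log (log (x + c))

lemma G_deriv {c ρ x : ℝ} (hρ : 1 < ρ) (hx : 1 < x) (hxc : 1 < x + c) :
    HasDerivAt (G c ρ) ((x ^ ρ * log (x ^ ρ) * ((x + c) * log (x + c)) -
      x * log x * ((x ^ ρ + c) * log (x ^ ρ + c))) /
      (x * log x * ((x ^ ρ + c) * log (x ^ ρ + c)) * ((x + c) * log (x + c)))) x := by
  have hx0 : 0 < x := by linarith
  have hxρ : x < x ^ ρ := by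
    have := rpow_lt_rpow_of_exponent_lt hx hρ
    rwa [rpow_one] at this
  have hl : 0 < log x := log_pos hx
  have hlc : 0 < log (x + c) := log_pos hxc
  have hlρ : 0 < log (x ^ ρ + c) := log_pos (by linarith)
  have h1 : HasDerivAt (fun x : ℝ => x ^ ρ + c) (ρ * x ^ (ρ - 1)) x :=
    (hasDerivAt_rpow_const (Or.inl hx0.ne')).add_const c
  have h2 := (h1.log (by linarith)).log hlρ.ne'
  have h3 : HasDerivAt (fun x : ℝ => x + c) 1 x := (hasDerivAt_id x).add_const c
  have h4 := (h3.log (by linarith)).log hlc.ne'
  have h5 := h2.sub h4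
  refine h5.congr_deriv ?_
  have e1 : x ^ (ρ - 1) = x ^ ρ / x := by rw [rpow_sub_one hx0.ne']
  rw [e1, log_rpow hx0]
  have hA : x ^ ρ + c ≠ 0 := by linarith
  have hB : x + c ≠ 0 := by linarith
  field_simp

/-- **Monotonicity.** -/
theorem mono_ne {c ρ x y : ℝ} (hc : c ≠ 0) (hρ : 1 < ρ) (hx : 1 < x) (hxy : x < y)
    (hxc : 1 < x + c) :
    log (x ^ ρ + c) * log (y + c) ≠ log (x + c) * log (y ^ ρ + c) := by
  have lift : ∀ w : ℝ, 1 < w → w < w ^ ρ := fun w hw => by
    have := rpow_lt_rpow_of_exponent_lt hw hρ
    rwa [rpow_one] at this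
  have hlx : 0 < log (x + c) := log_pos hxc
  have hly : 0 < log (y + c) := log_pos (by linarith)
  have hlxρ : 0 < log (x ^ ρ + c) := log_pos (by linarith [lift x hx])
  have hlyρ : 0 < log (y ^ ρ + c) := log_pos (by linarith [lift y (by linarith)])
  have key : G c ρ x ≠ G c ρ y := by
    have hcont : ∀ w ∈ Set.Icc x y, 1 < w ∧ 1 < w + c := fun w hw =>
      ⟨by linarith [hw.1], by linarith [hw.1]⟩
    have hC : ContinuousOn (G c ρ) (Set.Icc x y) := fun w hw =>
      (G_deriv hρ (hcont w hw).1 (hcont w hw).2).continuousAt.continuousWithinAt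
    have hpos : ∀ w ∈ Set.Icc x y, 0 < w * log w * ((w ^ ρ + c) * log (w ^ ρ + c)) *
        ((w + c) * log (w + c)) := fun w hw => by
      have h1 := (hcont w hw).1
      have h2 := (hcont w hw).2
      have h3 := lift w h1
      have := log_pos h1
      have := log_pos h2
      have : 0 < log (w ^ ρ + c) := log_pos (by linarith)
      have : 0 < w ^ ρ + c := by linarith
      have : 0 < w := by linarith
      positivity
    rcases lt_or_gt_of_ne hc with h | h
    · have hanti : StrictAntiOn (G c ρ) (Set.Icc x y) := by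
        refine strictAntiOn_of_deriv_neg (convex_Icc x y) hC ?_
        intro w hw
        have hw' : w ∈ Set.Icc x y := interior_subset hw
        have h1 := (hcont w hw').1
        have h2 := (hcont w hw').2
        rw [(G_deriv hρ h1 h2).deriv]
        refine div_neg_of_neg_of_pos ?_ (hpos w hw')
        have := elast_neg h h2 (lift w h1)
        linarith
      exact (hanti ⟨le_rfl, hxy.le⟩ ⟨hxy.le, le_rfl⟩ hxy).ne'
    · have hmono : StrictMonoOn (G c ρ) (Set.Icc x y) := by
        refine strictMonoOn_of_deriv_pos (convex_Icc x y) hC ?_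
        intro w hw
        have hw' : w ∈ Set.Icc x y := interior_subset hw
        have h1 := (hcont w hw').1
        have h2 := (hcont w hw').2
        rw [(G_deriv hρ h1 h2).deriv]
        refine div_pos ?_ (hpos w hw')
        have := elast_lt h h1 (lift w h1)
        linarith
      exact (hmono ⟨le_rfl, hxy.le⟩ ⟨hxy.le, le_rfl⟩ hxy).ne
  intro heq
  apply key
  unfold G
  have h1 := congrArg log heq
  rw [log_mul hlxρ.ne' hly.ne', log_mul hlx.ne' hlyρ.ne'] at h1
  linarith

end Pool.Agent.K4H73.QF
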