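import Mathlib
import Pool.Agent.H440R2.Schwarz
import Pool.Agent.H440R2.LFL
import Pool.Agent.K4H73.QF.ZE

/-!
An explicit lower bound for `|b log q - a log p|`, where `a`, `b`, `p` and `q` are elements of a ring with two
homomorphisms to the reals such that the product of the two images is bounded below (for instance the
integers of a real quadratic field), `a / b` irrational. Adapted from `Pool.Agent.H440R2.LFL` (integers).
-/

set_option autoImplicit false

namespace Pool.Agent.K4H73.QF

open Finset Pool.Agent.H440R2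

/-- Core estimate. -/
theorem lfl_quad {R : Type*} [CommRing R] (σ σ' : R →+* ℝ)
    (hN : ∀ x : R, σ x ≠ 0 → 1 ≤ |σ x| * max 1 |σ' x|) (P Q A B : R)
    (Y L : ℕ) (H : ℝ) (hp : 1 < σ P) (hq : 1 < σ Q) (ha0 : 0 ≤ σ A) (hb1 : 1 ≤ σ B)
    (hinj : ∀ r s r' s' : ℕ, (r : ℝ) * σ B + s * σ A = r' * σ B + s' * σ A → r = r' ∧ s = s')
    (hY : 1 ≤ Y) (hL1 : 1 ≤ L)
    (hpY : Real.log (σ P) ≤ Y) (hqY : Real.log (σ Q) ≤ Y)
    (hpY' : |σ' P| ≤ σ P) (hqY' : |σ' Q| ≤ σ Q)
    (hAH : σ A ≤ H) (hBH : σ B ≤ H) (hAH' : |σ' A| ≤ H) (hBH' : |σ' B| ≤ H)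
    (hL : 16 * (1 + Real.log (290 * Y * L * (2 * H))) ≤ L) :
    Real.exp (-(20880 * (Y:ℝ) ^ 2 * (L:ℝ) ^ 2)) <
      |σ B * Real.log (σ Q) - σ A * Real.log (σ P)| := by
  classical
  obtain ⟨a, had⟩ : ∃ a, a = σ A := ⟨_, rfl⟩
  obtain ⟨b, hbd⟩ : ∃ b, b = σ B := ⟨_, rfl⟩
  rw [← had] at ha0 hAH hinj ⊢
  rw [← hbd] at hb1 hBH hinj ⊢
  obtain ⟨p, hpd⟩ : ∃ p, p = σ P := ⟨_, rfl⟩
  obtain ⟨q, hqd⟩ : ∃ q, q = σ Q := ⟨_, rfl⟩
  rw [← hpd] at hp hpY hpY' ⊢
  rw [← hqd] at hq hqY hqY' ⊢
  by_contra hcon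
  rw [not_lt] at hcon
  set Λ : ℝ := b * Real.log q - a * Real.log p with hΛ
  set M : ℕ := 145 * Y * L with hM
  set K : ℕ := 144 * M * Y with hK
  have hYr : (1:ℝ) ≤ Y := by exact_mod_cast hY
  have hLr : (1:ℝ) ≤ L := by exact_mod_cast hL1
  have har : 0 ≤ a := ha0
  have hbr : (1:ℝ) ≤ b := hb1
  have hH1 : 1 ≤ H := hb1.trans hBH
  have hMr : (M:ℝ) = 145 * Y * L := by rw [hM]; push_cast; ring
  have hYLr : (1:ℝ) ≤ Y * L := one_le_mul_of_one_le_of_one_le hYr hLr
  have hM1 : (1:ℝ) ≤ M := by rw [hMr, mul_assoc]; linarith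
  have hKr : (K:ℝ) = 144 * M * Y := by rw [hK]; push_cast; ring
  have hMpos : 1 ≤ M := by exact_mod_cast hM1
  have hLM : (L:ℝ) ≤ M := by
    rw [hMr]
    have : (L:ℝ) ≤ Y * L := le_mul_of_one_le_left (by linarith) hYr
    linarith
  have hKL : (K:ℝ) * L = 20880 * (Y:ℝ) ^ 2 * (L:ℝ) ^ 2 := by rw [hKr, hMr]; ring
  have hlogp : 0 < Real.log p := Real.log_pos hp
  have hlogq : 0 < Real.log q := Real.log_pos hq
  -- the zero estimate
  have hzeroM : L * (K - 1) < M * M := by
    have h1 : L * K < M * M := by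
      have : K * L = 144 * M * (Y * L) := by rw [hK]; ring
      have h2 : M * M = M * (145 * (Y * L)) := by rw [hM]; ring
      have hYL : 0 < Y * L := Nat.mul_pos hY hL1
      rw [Nat.mul_comm L K, this, h2]
      have h3 : 144 * M * (Y * L) = M * (144 * (Y * L)) := by ring
      rw [h3]
      exact Nat.mul_lt_mul_of_pos_left (by omega) hMpos
    exact lt_of_le_of_lt (Nat.mul_le_mul_left _ (Nat.sub_le _ _)) h1
  obtain ⟨j, hjT, hdet⟩ := exists_det_ne_zero (ι := Fin K × Fin L) (T := ℕ × ℕ)
    (fun τ i => ((τ.1 : ℝ) * b + (τ.2 : ℝ) * a) ^ (i.1 : ℕ) * (p ^ τ.1 * q ^ τ.2) ^ (i.2 : ℕ))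
    {τ | τ.1 < M + L ∧ τ.2 < M} (by
      intro c hc
      have := zero_estimate K L M a b p q hp (by linarith) hinj hzeroM
        (fun k l => c (k, l)) (by
          intro r s hr hs
          have := hc (r, s) ⟨hr, hs⟩
          rw [← this, Fintype.sum_prod_type])
      ext ⟨k, l⟩
      exact congrFun (congrFun this k) l)
  clear_value K M
  set E : Matrix (Fin K × Fin L) (Fin K × Fin L) ℝ := Matrix.of fun i i' =>
    (((j i').1 : ℝ) * b + ((j i').2 : ℝ) * a) ^ (i.1 : ℕ) *
      (p ^ (j i').1 * q ^ (j i').2) ^ (i.2 : ℕ) with hE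
  -- analytic estimate
  set X : ℝ := (M + L) * b + M * a with hX
  have hX1 : 1 ≤ X := by
    have h1 : 1 ≤ ((M:ℝ) + L) * b := one_le_mul_of_one_le_of_one_le (by linarith) hbr
    have h2 : 0 ≤ (M:ℝ) * a := by positivity
    rw [hX]
    linarith
  set X' : ℝ := (M + L) * H + M * H with hX'
  have hXX' : X ≤ X' := by
    rw [hX, hX']
    gcongr
  have hX1' : 1 ≤ X' := hX1.trans hXX'
  -- integrality
  set F2 : ℝ := X' ^ K * Real.exp (3 * L * M * Y) with hF2
  have hF2pos : 0 < F2 := by rw [hF2]; positivity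
  have hF21 : 1 ≤ F2 := by
    rw [hF2]
    exact one_le_mul_of_one_le_of_one_le (one_le_pow₀ hX1') (Real.one_le_exp (by positivity))
  have hp0' : 0 < p := by linarith
  have hq0' : 0 < q := by linarith
  have hpe : p ≤ Real.exp Y := by
    rw [← Real.exp_log hp0']; exact Real.exp_le_exp.mpr hpY
  have hqe : q ≤ Real.exp Y := by
    rw [← Real.exp_log hq0']; exact Real.exp_le_exp.mpr hqY
  have hdet1 : 1 ≤ |E.det| * (((K * L).factorial : ℝ) * F2 ^ (K * L)) := by
    set Z : Matrix (Fin K × Fin L) (Fin K × Fin L) R := Matrix.of fun i i' =>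
      (((j i').1 : R) * B + ((j i').2 : R) * A) ^ (i.1 : ℕ) *
        (P ^ (j i').1 * Q ^ (j i').2) ^ (i.2 : ℕ) with hZ
    have h1 : E = Z.map σ := by
      ext i i'
      simp [hE, hZ, hpd, hqd, had, hbd]
    have h2 : E.det = σ Z.det := by
      rw [h1]
      have := RingHom.map_det σ Z
      simpa [RingHom.mapMatrix_apply] using this.symm
    have h3 : σ Z.det ≠ 0 := by rw [← h2]; exact hdet
    have h4 : σ' Z.det = (Z.map σ').det := by
      have := RingHom.map_det σ' Z
      simpa [RingHom.mapMatrix_apply] using this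
    have h5 : |σ' Z.det| ≤ ((K * L).factorial : ℝ) * F2 ^ (K * L) := by
      rw [h4]
      have h6 := abs_det_le_prod (Z.map σ') (fun _ => F2) (by
        intro i i'
        have e1 : (Z.map σ') i i' = (((j i').1 : ℝ) * σ' B + ((j i').2 : ℝ) * σ' A) ^ (i.1 : ℕ) *
            (σ' P ^ (j i').1 * σ' Q ^ (j i').2) ^ (i.2 : ℕ) := by
          simp [hZ]
        rw [e1, abs_mul, abs_pow, abs_pow, abs_mul, abs_pow, abs_pow, hF2]
        have g1 : (j i').1 < M + L := (hjT i').1
        have g2 : (j i').2 < M := (hjT i').2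
        have g1' : ((j i').1 : ℝ) ≤ M + L := by exact_mod_cast g1.le
        have g2' : ((j i').2 : ℝ) ≤ M := by exact_mod_cast g2.le
        have g3 : |((j i').1 : ℝ) * σ' B + ((j i').2 : ℝ) * σ' A| ≤ X' := by
          rw [hX']
          refine (abs_add_le _ _).trans ?_
          rw [abs_mul, abs_mul, Nat.abs_cast, Nat.abs_cast]
          exact add_le_add (mul_le_mul g1' hBH' (abs_nonneg _) (by positivity))
            (mul_le_mul g2' hAH' (abs_nonneg _) (by positivity))
        apply mul_le_mul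
        · exact (pow_le_pow_left₀ (abs_nonneg _) g3 _).trans
            (pow_le_pow_right₀ hX1' i.1.2.le)
        · have g4 : |σ' P| ^ (j i').1 ≤ Real.exp ((j i').1 * Y) := by
            rw [Real.exp_nat_mul]
            exact pow_le_pow_left₀ (abs_nonneg _) (hpY'.trans hpe) _
          have g5 : |σ' Q| ^ (j i').2 ≤ Real.exp ((j i').2 * Y) := by
            rw [Real.exp_nat_mul]
            exact pow_le_pow_left₀ (abs_nonneg _) (hqY'.trans hqe) _
          have g6 : |σ' P| ^ (j i').1 * |σ' Q| ^ (j i').2 ≤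
              Real.exp (((j i').1 + (j i').2) * Y) := by
            rw [add_mul, Real.exp_add]
            exact mul_le_mul g4 g5 (by positivity) (Real.exp_pos _).le
          have g7 : (|σ' P| ^ (j i').1 * |σ' Q| ^ (j i').2) ^ (i.2 : ℕ) ≤
              Real.exp ((i.2 : ℕ) * (((j i').1 + (j i').2) * Y)) := by
            rw [Real.exp_nat_mul (((j i').1 + (j i').2) * (Y : ℝ)) (i.2 : ℕ)]
            exact pow_le_pow_left₀ (by positivity) g6 _
          refine g7.trans (Real.exp_le_exp.mpr ?_)
          have g8 : ((i.2 : ℕ) : ℝ) ≤ L := by exact_mod_cast i.2.2.le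
          have g9 : (((j i').1 : ℝ) + (j i').2) * Y ≤ (3 * M) * Y := by
            apply mul_le_mul_of_nonneg_right _ (by linarith)
            linarith
          calc ((i.2 : ℕ) : ℝ) * (((j i').1 + (j i').2) * Y) ≤ L * ((3 * M) * Y) := by
                apply mul_le_mul g8 g9 (by positivity) (by positivity)
            _ = 3 * L * M * Y := by ring
        · positivity
        · positivity)
      simpa using h6
    have h7 := hN Z.det h3
    rw [← h2] at h7
    refine h7.trans (mul_le_mul_of_nonneg_left ?_ (abs_nonneg _))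
    apply max_le _ h5
    have h8 : (1 : ℝ) ≤ (K * L).factorial := by exact_mod_cast Nat.one_le_iff_ne_zero.mpr (Nat.factorial_ne_zero _)
    exact one_le_mul_of_one_le_of_one_le h8 (one_le_pow₀ hF21)
  set c : ℝ := Real.log p / b with hc
  have hc0 : 0 ≤ c := by rw [hc]; positivity
  have hN : Fintype.card (Fin K × Fin L) = K * L := by simp
  have hEeq : E = Matrix.of fun i i' : Fin K × Fin L =>
      (fun i' => (((j i').1 : ℝ) * b + ((j i').2 : ℝ) * a)) i' ^ ((fun i : Fin K × Fin L => (i.1 : ℕ)) i) *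
      Real.exp (((fun i : Fin K × Fin L => (i.2 : ℕ)) i : ℕ) *
        (c * (fun i' => (((j i').1 : ℝ) * b + ((j i').2 : ℝ) * a)) i' +
          (fun i' => ((j i').2 : ℝ) * Λ / b) i')) := by
    ext i i'
    simp only [hE, Matrix.of_apply]
    congr 1
    have h1 : c * (((j i').1 : ℝ) * b + ((j i').2 : ℝ) * a) + ((j i').2 : ℝ) * Λ / b
        = (j i').1 * Real.log p + (j i').2 * Real.log q := by
      rw [hc, hΛ]
      push_cast
      field_simp
      ring
    rw [h1]
    have hp0 : (0:ℝ) < p := by linarith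
    have hq0 : (0:ℝ) < q := by linarith
    rw [Real.exp_nat_mul, Real.exp_add, Real.exp_nat_mul, Real.exp_nat_mul, Real.exp_log hp0,
      Real.exp_log hq0]
  have hschw := schwarz_exp (ι := Fin K × Fin L) (fun i => (i.1 : ℕ)) (fun i => (i.2 : ℕ))
    (fun i' => (((j i').1 : ℝ) * b + ((j i').2 : ℝ) * a))
    (fun i' => ((j i').2 : ℝ) * Λ / b) c X (M * |Λ| / b) (Real.exp 1) hc0 (by linarith)
    (by positivity) (by rw [← Real.exp_zero]; exact Real.exp_le_exp.mpr (by norm_num))
    (by
      intro i'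
      have h1 : (j i').1 < M + L := (hjT i').1
      have h2 : (j i').2 < M := (hjT i').2
      rw [abs_of_nonneg (by positivity), hX]
      push_cast
      have h1' : ((j i').1 : ℝ) ≤ M + L := by exact_mod_cast h1.le
      have h2' : ((j i').2 : ℝ) ≤ M := by exact_mod_cast h2.le
      exact add_le_add (mul_le_mul_of_nonneg_right h1' (by linarith))
        (mul_le_mul_of_nonneg_right h2' (by linarith)))
    (by
      intro i'
      have h2 : (j i').2 < M := (hjT i').2
      have h2' : ((j i').2 : ℝ) ≤ M := by exact_mod_cast h2.le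
      rw [abs_div, abs_mul, Nat.abs_cast, abs_of_pos (by linarith : (0:ℝ) < b)]
      gcongr)
  rw [← hEeq, hN] at hschw
  clear_value E X c
  obtain ⟨N, hNdef⟩ : ∃ N : ℕ, N = K * L := ⟨_, rfl⟩
  rw [← hNdef] at hschw
  have hNr : (N:ℝ) = 20880 * (Y:ℝ) ^ 2 * (L:ℝ) ^ 2 := by rw [hNdef]; push_cast; exact hKL
  have hNbig : (20880:ℝ) ≤ N := by
    rw [hNr]
    have : (1:ℝ) ≤ (Y:ℝ)^2 * (L:ℝ)^2 :=
      one_le_mul_of_one_le_of_one_le (one_le_pow₀ hYr) (one_le_pow₀ hLr)
    linarith
  -- bound of W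
  set W : ℝ := c * (Real.exp 1 * X) + Real.exp 1 ^ N * (M * |Λ| / b) with hW
  have he1 : Real.exp 1 < 2.7182818286 := Real.exp_one_lt_d9
  have hexpN : Real.exp 1 ^ N * |Λ| ≤ 1 := by
    rw [← Real.exp_nat_mul, mul_one]
    calc Real.exp N * |Λ| ≤ Real.exp N * Real.exp (-(20880 * (Y:ℝ) ^ 2 * (L:ℝ) ^ 2)) := by
          gcongr
      _ = 1 := by rw [← Real.exp_add, hNr]; simp
  have hΛ1 : |Λ| ≤ 1 := by
    refine hcon.trans ?_
    rw [Real.exp_le_one_iff]
    have : 0 ≤ 20880 * (Y:ℝ) ^ 2 * (L:ℝ) ^ 2 := by positivity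
    linarith
  have hcX : c * X ≤ 4 * M * Y := by
    have h1 : c * X = (M + L) * Real.log p + M * (a * Real.log p / b) := by
      rw [hc, hX]
      field_simp
    have h2 : a * Real.log p / b ≤ Y + 1 := by
      have h3 : a * Real.log p = b * Real.log q - Λ := by rw [hΛ]; ring
      rw [h3, sub_div, mul_div_assoc, mul_comm, div_mul_cancel₀ _ (by positivity)]
      have h4 : -Λ / b ≤ 1 := by
        rw [div_le_one (by positivity)]
        have := neg_le_abs Λ
        linarith
      rw [neg_div] at h4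
      linarith
    rw [h1]
    have h5 : (M + L) * Real.log p ≤ (M + M) * Y := by
      apply mul_le_mul (by linarith) hpY hlogp.le (by positivity)
    have h6 : M * (a * Real.log p / b) ≤ M * (Y + 1) := by
      apply mul_le_mul_of_nonneg_left h2 (by positivity)
    have h7 : (M:ℝ) ≤ M * Y := le_mul_of_one_le_right (by linarith) hYr
    linarith
  have hW12 : W ≤ 12 * M * Y := by
    have h1 : c * (Real.exp 1 * X) = Real.exp 1 * (c * X) := by ring
    have h2 : Real.exp 1 ^ N * (M * |Λ| / b) ≤ M := by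
      have h3 : Real.exp 1 ^ N * (M * |Λ| / b) = (Real.exp 1 ^ N * |Λ|) * (M / b) := by ring
      rw [h3]
      calc (Real.exp 1 ^ N * |Λ|) * (M / b) ≤ 1 * (M / b) := by gcongr
        _ ≤ M := by
          rw [one_mul]
          exact div_le_self (by positivity) hbr
    have h4 : Real.exp 1 * (c * X) ≤ 2.7182818286 * (4 * M * Y) := by
      apply mul_le_mul he1.le hcX (by positivity) (by norm_num)
    have h5 : (M:ℝ) ≤ M * Y := le_mul_of_one_le_right (by linarith) hYr
    have h6 : 0 ≤ (M:ℝ) * Y := by positivity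
    rw [hW, h1]
    linarith
  have hW0 : 0 ≤ W := by rw [hW]; positivity
  -- each factor
  set F : ℝ := (Real.exp 1 * X) ^ K * Real.exp (L * W) with hF
  have heX1 : 1 ≤ Real.exp 1 * X := by
    have : 1 ≤ Real.exp 1 := by
      rw [← Real.exp_zero]; exact Real.exp_le_exp.mpr (by norm_num)
    exact one_le_mul_of_one_le_of_one_le this hX1
  have hF0 : 0 < F := by rw [hF]; positivity
  have hprod : ∏ i : Fin K × Fin L, ((Real.exp 1 * X) ^ (i.1 : ℕ) *
      Real.exp ((i.2 : ℕ) * (c * (Real.exp 1 * X) + Real.exp 1 ^ N * (M * |Λ| / b)))) ≤ F ^ N := by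
    calc _ ≤ ∏ _i : Fin K × Fin L, F := by
          apply prod_le_prod
          · intro i _
            positivity
          · intro i _
            rw [hF]
            apply mul_le_mul
            · exact pow_le_pow_right₀ heX1 i.1.2.le
            · apply Real.exp_le_exp.mpr
              rw [← hW]
              apply mul_le_mul_of_nonneg_right _ hW0
              exact_mod_cast i.2.2.le
            · positivity
            · positivity
      _ = F ^ N := by simp [hNdef]
  rw [← hNdef] at hdet1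
  have hmain : Real.exp 1 ^ (N * (N - 1) / 2) ≤ ((N:ℝ) ^ N * F2 ^ N) * ((N:ℝ) ^ N * F ^ N) := by
    have hfac : ((N.factorial : ℕ) : ℝ) ≤ (N:ℝ) ^ N := by exact_mod_cast Nat.factorial_le_pow N
    calc Real.exp 1 ^ (N * (N - 1) / 2) ≤ (|E.det| * ((N.factorial : ℝ) * F2 ^ N)) *
            Real.exp 1 ^ (N * (N - 1) / 2) := by
          apply le_mul_of_one_le_left (by positivity) hdet1
      _ = ((N.factorial : ℝ) * F2 ^ N) * (|E.det| * Real.exp 1 ^ (N * (N - 1) / 2)) := by ring
      _ ≤ ((N.factorial : ℝ) * F2 ^ N) * (N.factorial * ∏ i : Fin K × Fin L,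
          ((Real.exp 1 * X) ^ (i.1 : ℕ) *
      Real.exp ((i.2 : ℕ) * (c * (Real.exp 1 * X) + Real.exp 1 ^ N * (M * |Λ| / b))))) :=
          mul_le_mul_of_nonneg_left hschw (by positivity)
      _ ≤ ((N:ℝ) ^ N * F2 ^ N) * ((N:ℝ) ^ N * F ^ N) := by
          apply mul_le_mul
          · exact mul_le_mul_of_nonneg_right hfac (by positivity)
          · exact mul_le_mul hfac hprod (by positivity) (by positivity)
          · positivity
          · positivity
  -- take logs
  have hNpos : (0:ℝ) < N := by linarith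
  have hlogmain : ((N * (N - 1) / 2 : ℕ) : ℝ) ≤
      N * (2 * Real.log N + (Real.log F + Real.log F2)) := by
    have h1 := Real.log_le_log (by positivity) hmain
    rw [Real.log_pow, Real.log_exp, mul_one, Real.log_mul (by positivity) (by positivity),
      Real.log_mul (by positivity) (by positivity), Real.log_mul (by positivity) (by positivity),
      Real.log_pow, Real.log_pow, Real.log_pow] at h1
    linarith
  have hhalf : ((N * (N - 1) / 2 : ℕ) : ℝ) = N * (N - 1) / 2 := by
    have hN1 : 1 ≤ N := by exact_mod_cast (by linarith : (1:ℝ) ≤ N)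
    rw [Nat.cast_div (even_iff_two_dvd.mp (Nat.even_mul_pred_self N)) (by norm_num)]
    push_cast [Nat.cast_sub hN1]
    ring
  rw [hhalf] at hlogmain
  have hlog2 : (N - 1) / 2 ≤ 2 * Real.log N + (Real.log F + Real.log F2) := by
    have : N * ((N - 1) / 2) ≤ N * (2 * Real.log N + (Real.log F + Real.log F2)) := by linarith
    exact le_of_mul_le_mul_left this hNpos
  have hlogF : Real.log F = K * (1 + Real.log X) + L * W := by
    rw [hF, Real.log_mul (by positivity) (by positivity), Real.log_pow, Real.log_exp,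
      Real.log_mul (by positivity) (by linarith), Real.log_exp]
  have hXbound : Real.log X' ≤ Real.log (290 * Y * L * (2 * H)) := by
    apply Real.log_le_log (by linarith)
    rw [hX']
    have : (M + L) * H + M * H ≤ (M + M) * H + (M + M) * H :=
      add_le_add (mul_le_mul_of_nonneg_right (by linarith) (by linarith))
        (mul_le_mul_of_nonneg_right (by linarith) (by linarith))
    refine this.trans (le_of_eq ?_)
    rw [hMr]
    ring
  have hXX : Real.log X ≤ Real.log X' := Real.log_le_log (by linarith) hXX'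
  have hlogF2 : Real.log F2 = K * Real.log X' + 3 * L * M * Y := by
    rw [hF2, Real.log_mul (by positivity) (by positivity), Real.log_pow, Real.log_exp]
  have h8 : 16 * (1 + Real.log X') ≤ L := by linarith
  have hA : 2 * (K * (1 + Real.log X')) ≤ K * L / 8 := by
    have h9 : (0:ℝ) ≤ K := by positivity
    have h10 : K * (16 * (1 + Real.log X')) ≤ K * (L:ℝ) := mul_le_mul_of_nonneg_left h8 h9
    linarith
  have hA' : 3 * (L:ℝ) * M * Y ≤ K * L / 48 := by
    rw [hKr]
    have : (0:ℝ) ≤ L * M * Y := by positivity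
    linarith
  have hB : L * W ≤ K * L / 12 := by
    have : L * W ≤ L * (12 * M * Y) := by gcongr
    refine this.trans (le_of_eq ?_)
    rw [hKr]
    ring
  have hC : Real.log N ≤ N / 100 + 4 := by
    have h1 : Real.log N = Real.log (N / 100) + Real.log 100 := by
      rw [← Real.log_mul (by positivity) (by norm_num)]
      congr 1
      ring
    have h2 : Real.log (N / 100) ≤ N / 100 - 1 := Real.log_le_sub_one_of_pos (by positivity)
    have h3 : Real.log 100 ≤ 5 := by
      rw [Real.log_le_iff_le_exp (by norm_num)]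
      have : (2.7182818283:ℝ) ^ 5 ≤ Real.exp 1 ^ 5 := by
        apply pow_le_pow_left₀ (by norm_num)
        exact Real.exp_one_gt_d9.le
      rw [← Real.exp_nat_mul] at this
      norm_num at this ⊢
      linarith
    linarith
  have hKLN : (K:ℝ) * L = N := by rw [hNdef]; push_cast; ring
  rw [hlogF, hlogF2] at hlog2
  rw [hKLN] at hA hB hA'
  have hK0 : (0:ℝ) ≤ K := by positivity
  have hKX : K * Real.log X ≤ K * Real.log X' := mul_le_mul_of_nonneg_left hXX hK0
  linarith

end Pool.Agent.K4H73.QF
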