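import Mathlib
import Pool.Agent.K4H73.QF.Core
import Pool.Agent.K4H73.LU.Gen

/-!
# A lower bound for the values of integral binary quadratic forms at `(log p, log q)`
-/

set_option autoImplicit false

namespace Pool.Agent.K4H73.QF

open Real Zsqrtd

/-- the parameters of the lower bounds -/
structure Par (p q Y L : ℕ) (H : ℝ) : Prop where
  hp : 2 ≤ p
  hq : 2 ≤ q
  hY : 1 ≤ Y
  hL : 1 ≤ L
  hpY : log p ≤ Y
  hqY : log q ≤ Y
  hH : 1 ≤ H
  hind : ∀ m n : ℕ, p ^ m = q ^ n → m = 0
  hLH : 16 * (1 + log (290 * Y * L * (2 * H))) ≤ L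

/-- the lower bound for one linear form -/
noncomputable def EE (Y L : ℕ) : ℝ := exp (-(20880 * (Y:ℝ) ^ 2 * (L:ℝ) ^ 2))

lemma EE_pos (Y L : ℕ) : 0 < EE Y L := exp_pos _

section
variable {p q Y L : ℕ} {H : ℝ}

lemma Par.EE_le (S : Par p q Y L H) : EE Y L ≤ 1 / 2 := by
  have h1 : (1:ℝ) ≤ Y := by exact_mod_cast S.hY
  have h2 : (1:ℝ) ≤ L := by exact_mod_cast S.hL
  have h3 : (1:ℝ) ≤ (Y:ℝ) ^ 2 * (L:ℝ) ^ 2 :=
    one_le_mul_of_one_le_of_one_le (one_le_pow₀ h1) (one_le_pow₀ h2)
  have h4 : EE Y L ≤ exp (-1) := by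
    unfold EE
    apply exp_le_exp.2
    linarith
  have h5 : exp (-1) ≤ 1 / 2 := by
    rw [exp_neg, inv_le_comm₀ (exp_pos _) (by norm_num)]
    have := add_one_le_exp (1:ℝ)
    linarith
  exact h4.trans h5

lemma half_le_log {n : ℕ} (hn : 2 ≤ n) : 1 / 2 ≤ log n := by
  have h1 : log 2 ≤ log n := log_le_log (by norm_num) (by exact_mod_cast hn)
  have h2 := log_two_gt_d9
  linarith

/-- positive coefficients -/
lemma Par.lin_pos (S : Par p q Y L H) {a b : ℕ} (ha : 1 ≤ a) (hb : 1 ≤ b) (haH : (a:ℝ) ≤ H)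
    (hbH : (b:ℝ) ≤ H) :
    EE Y L < |(b:ℝ) * log q - a * log p| := by
  have hp0 : (1:ℝ) < p := by exact_mod_cast S.hp
  have hq0 : (1:ℝ) < q := by exact_mod_cast S.hq
  have h := LU.lfl_gen (R := ℤ) (Int.castRingHom ℝ) (Int.castRingHom ℝ) (by
    intro x hx
    have hx0 : x ≠ 0 := by
      rintro rfl
      simp at hx
    have h1 : (1:ℝ) ≤ |(x:ℝ)| := by exact_mod_cast Int.one_le_abs hx0
    simp only [eq_intCast]
    exact one_le_mul_of_one_le_of_one_le h1 (le_max_left _ _)) (p:ℤ) (q:ℤ) a b Y L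
    (by simpa using hp0) (by simpa using hq0) ha hb (by
      simp only [eq_intCast, Int.cast_natCast]
      intro h
      have := S.hind a b (by exact_mod_cast h)
      omega) S.hY S.hL (by simpa using S.hpY) (by simpa using S.hqY)
      (by simp) (by simp) (by
        refine le_trans ?_ S.hLH
        have hY1 : (1:ℝ) ≤ Y := by exact_mod_cast S.hY
        have hL1 : (1:ℝ) ≤ L := by exact_mod_cast S.hL
        have ha1 : (1:ℝ) ≤ a := by exact_mod_cast ha
        have hb1 : (1:ℝ) ≤ b := by exact_mod_cast hb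
        have h1 : log (290 * Y * L * (a + b)) ≤ log (290 * Y * L * (2 * H)) := by
          apply log_le_log (by positivity)
          apply mul_le_mul_of_nonneg_left (by linarith) (by positivity)
        linarith)
  simpa [EE] using h

/-- linear forms with integral coefficients -/
lemma Par.lin (S : Par p q Y L H) {a b : ℤ} (ha : |(a:ℝ)| ≤ H) (hb : |(b:ℝ)| ≤ H)
    (hne : a ≠ 0 ∨ b ≠ 0) : EE Y L ≤ |(a:ℝ) * log p + b * log q| := by
  have hE := S.EE_le
  have lp := half_le_log S.hp
  have lq := half_le_log S.hq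
  have key : ∀ a b : ℤ, |(a:ℝ)| ≤ H → |(b:ℝ)| ≤ H → (a ≠ 0 ∨ b ≠ 0) → 0 ≤ b →
      EE Y L ≤ |(a:ℝ) * log p + b * log q| := by
    intro a b ha hb hne hb0
    rcases le_or_gt 0 a with ha0 | ha0
    · have ha0' : (0:ℝ) ≤ a := by exact_mod_cast ha0
      have hb0' : (0:ℝ) ≤ b := by exact_mod_cast hb0
      refine hE.trans (le_trans ?_ (le_abs_self _))
      rcases ha0.eq_or_lt with h | h
      · rcases hb0.eq_or_lt with h' | h'
        · exfalso
          omega
        · have h1 : (1:ℝ) ≤ b := by exact_mod_cast h'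
          have : 0 ≤ (a:ℝ) * log p := mul_nonneg ha0' (by linarith)
          nlinarith
      · have h1 : (1:ℝ) ≤ a := by exact_mod_cast h
        have : 0 ≤ (b:ℝ) * log q := mul_nonneg hb0' (by linarith)
        nlinarith
    · rcases hb0.eq_or_lt with h' | h'
      · have h1 : (a:ℝ) ≤ -1 := by exact_mod_cast (by omega : a ≤ -1)
        rw [← h', Int.cast_zero, zero_mul, add_zero, abs_mul, abs_of_neg (by linarith : (a:ℝ) < 0),
          abs_of_pos (by linarith : 0 < log (p:ℝ))]
        nlinarith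
      · obtain ⟨m, rfl⟩ : ∃ m : ℕ, a = -(m:ℤ) := ⟨a.natAbs, by omega⟩
        obtain ⟨n, rfl⟩ : ∃ n : ℕ, b = (n:ℤ) := ⟨b.natAbs, by omega⟩
        have e1 : ((-(m:ℤ) : ℤ) : ℝ) * log p + ((n:ℤ):ℝ) * log q = n * log q - m * log p := by
          push_cast; ring
        rw [e1]
        refine (S.lin_pos (by omega) (by omega) ?_ ?_).le
        · have : |((-(m:ℤ) : ℤ) : ℝ)| = m := by simp
          rwa [this] at ha
        · have : |((n:ℤ) : ℝ)| = n := by simp
          rwa [this] at hb
  rcases le_or_gt 0 b with h | h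
  · exact key a b ha hb hne h
  · have h1 := key (-a) (-b) (by push_cast; rwa [abs_neg]) (by push_cast; rwa [abs_neg]) (by omega) (by omega)
    have e1 : (((-a : ℤ) : ℝ)) * log p + ((-b : ℤ) : ℝ) * log q = -((a:ℝ) * log p + b * log q) := by
      push_cast; ring
    rwa [e1, abs_neg] at h1

/-- linear forms with coefficients in a real quadratic order -/
lemma Par.quad (S : Par p q Y L H) {D b c : ℤ} (s : ℝ) (hs : s * s = D) (hirr : Irrational s)
    (hc : 1 ≤ c) (hcH : ((2 * c : ℤ) : ℝ) ≤ H) (hbH : |(b:ℝ)| + |s| ≤ H) :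
    EE Y L ≤ |((2 * c : ℤ) : ℝ) * log q - (b + s) * log p| := by
  have hE := S.EE_le
  have lp := half_le_log S.hp
  have lq := half_le_log S.hq
  have hc1 : (1:ℝ) ≤ c := by exact_mod_cast hc
  have hp0 : (1:ℝ) < p := by exact_mod_cast S.hp
  have hq0 : (1:ℝ) < q := by exact_mod_cast S.hq
  rcases le_or_gt (b + s) 0 with h0 | h0
  · refine hE.trans (le_trans ?_ (le_abs_self _))
    push_cast
    nlinarith
  have hs' : (-s) * (-s) = (D:ℝ) := by rw [neg_mul_neg, hs]
  obtain ⟨σ, hσ⟩ : ∃ σ : ℤ√D →+* ℝ, ∀ x : ℤ√D, σ x = x.re + x.im * s :=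
    ⟨Zsqrtd.lift ⟨s, hs⟩, fun x => rfl⟩
  obtain ⟨σ', hσ'⟩ : ∃ σ' : ℤ√D →+* ℝ, ∀ x : ℤ√D, σ' x = x.re + x.im * (-s) :=
    ⟨Zsqrtd.lift ⟨-s, hs'⟩, fun x => rfl⟩
  have hbs : |(b:ℝ)| + |s| = |(b:ℝ)| + |-s| := by rw [abs_neg]
  have h := lfl_quad σ σ' (by
    intro x hx
    have h1 : σ x * σ' x = ((x.re ^ 2 - D * x.im ^ 2 : ℤ) : ℝ) := by
      rw [hσ, hσ']
      push_cast
      rw [← hs]
      ring
    have h2 : σ' x ≠ 0 := by
      intro h0
      rw [hσ'] at h0
      by_cases him : x.im = 0
      · rw [hσ, him] at hx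
        rw [him] at h0
        simp only [Int.cast_zero, zero_mul, add_zero] at h0 hx
        exact hx h0
      · have him' : (x.im:ℝ) ≠ 0 := by exact_mod_cast him
        refine hirr ⟨(x.re : ℚ) / x.im, ?_⟩
        push_cast
        field_simp
        linarith
    have h3 : x.re ^ 2 - D * x.im ^ 2 ≠ 0 := by
      intro h0
      rw [h0, Int.cast_zero] at h1
      rcases mul_eq_zero.1 h1 with h | h
      · exact hx h
      · exact h2 h
    have h4 : (1:ℝ) ≤ |σ x * σ' x| := by
      rw [h1]
      exact_mod_cast Int.one_le_abs h3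
    rw [abs_mul] at h4
    exact h4.trans (mul_le_mul_of_nonneg_left (le_max_right _ _) (abs_nonneg _)))
    (p : ℤ√D) (q : ℤ√D) ⟨b, 1⟩ ((2 * c : ℤ) : ℤ√D) Y L H (by simpa using hp0) (by simpa using hq0)
    (by rw [hσ]; push_cast; linarith) (by rw [map_intCast]; push_cast; linarith) (by
      intro r t r' t' he
      rw [map_intCast, hσ] at he
      simp only [Int.cast_one, one_mul] at he
      by_cases ht : t = t'
      · subst ht
        have h1 : (r:ℝ) * ((2 * c : ℤ) : ℝ) = r' * ((2 * c : ℤ) : ℝ) := by linarith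
        have h2 : (r:ℝ) = r' := mul_right_cancel₀ (by push_cast; positivity) h1
        exact ⟨by exact_mod_cast h2, rfl⟩
      · exfalso
        have ht' : (t:ℝ) - t' ≠ 0 := sub_ne_zero.2 (by exact_mod_cast ht)
        refine hirr ⟨(((r' : ℚ) - r) * (2 * c) - (t - t') * b) / (t - t'), ?_⟩
        push_cast at he ⊢
        field_simp
        linarith) S.hY S.hL (by simpa using S.hpY) (by simpa using S.hqY) (by simp) (by simp)
    (by
      rw [hσ]
      simp only [Int.cast_one, one_mul]
      have h1 := le_abs_self (b:ℝ)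
      have h2 := le_abs_self s
      linarith)
    (by rw [map_intCast]; exact hcH)
    (by
      rw [hσ']
      simp only [Int.cast_one, one_mul]
      rw [hbs] at hbH
      exact (abs_add_le _ _).trans hbH)
    (by
      rw [map_intCast, abs_of_nonneg (by push_cast; linarith)]
      exact hcH) S.hLH
  have e1 : σ ⟨b, 1⟩ = b + s := by rw [hσ]; simp
  rw [e1, map_intCast, map_natCast, map_natCast] at h
  exact h.le

/-- **Quadratic forms in `log p`, `log q`.** -/
theorem Par.form (S : Par p q Y L H) {a b c : ℤ} {h : ℝ} (hh : 1 ≤ h) (hH : 4 * h ≤ H)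
    (ha : |(a:ℝ)| ≤ h) (hb : |(b:ℝ)| ≤ h) (hc : |(c:ℝ)| ≤ h)
    (hne : a ≠ 0 ∨ b ≠ 0 ∨ c ≠ 0) :
    EE Y L ^ 2 ≤ 4 * h * |(a:ℝ) * log p ^ 2 + b * (log p * log q) + c * log q ^ 2| := by
  have hE := S.EE_le
  have hE0 := EE_pos Y L
  have lp := half_le_log S.hp
  have lq := half_le_log S.hq
  have main : ∀ a b c : ℤ, |(a:ℝ)| ≤ h → |(b:ℝ)| ≤ h → |(c:ℝ)| ≤ h →
      (a ≠ 0 ∨ b ≠ 0 ∨ c ≠ 0) → 0 ≤ c →
      EE Y L ^ 2 ≤ 4 * h * |(a:ℝ) * log p ^ 2 + b * (log p * log q) + c * log q ^ 2| := by
    intro a b c ha hb hc hne hc0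
    rcases hc0.eq_or_lt with hc1 | hc1
    · -- linear
      have e1 : (a:ℝ) * log p ^ 2 + b * (log p * log q) + c * log q ^ 2 =
          log p * (a * log p + b * log q) := by
        rw [← hc1]; push_cast; ring
      rw [e1]
      have h1 := S.lin (a := a) (b := b) (by linarith) (by linarith) (by omega)
      rw [abs_mul, abs_of_pos (by linarith : 0 < log (p:ℝ))]
      have h2 : EE Y L * EE Y L ≤ log p * |(a:ℝ) * log p + b * log q| :=
        mul_le_mul (by linarith) h1 hE0.le (by linarith)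
      have h3 : 0 ≤ log p * |(a:ℝ) * log p + b * log q| := by
        have := abs_nonneg ((a:ℝ) * log p + b * log q)
        have : 0 ≤ log (p:ℝ) := by linarith
        positivity
      nlinarith
    · have hcr : (1:ℝ) ≤ c := by exact_mod_cast hc1
      have hch : (c:ℝ) ≤ h := (le_abs_self _).trans hc
      obtain ⟨D, hD⟩ : ∃ D, D = b ^ 2 - 4 * a * c := ⟨_, rfl⟩
      have hDr : (D:ℝ) = b ^ 2 - 4 * a * c := by rw [hD]; push_cast; ring
      have e1 : 4 * (c:ℝ) * ((a:ℝ) * log p ^ 2 + b * (log p * log q) + c * log q ^ 2) =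
          (2 * c * log q + b * log p) ^ 2 - D * log p ^ 2 := by rw [hDr]; ring
      have hscale : ∀ z : ℝ, EE Y L ^ 2 ≤ |4 * (c:ℝ) * z| → EE Y L ^ 2 ≤ 4 * h * |z| := by
        intro z hz
        refine hz.trans ?_
        rw [abs_mul, abs_of_pos (by linarith : (0:ℝ) < 4 * c)]
        exact mul_le_mul_of_nonneg_right (by linarith) (abs_nonneg _)
      apply hscale
      rw [e1]
      rcases lt_or_ge D 0 with hneg | hpos
      · have h1 : (D:ℝ) ≤ -1 := by exact_mod_cast (by omega : D ≤ -1)
        refine le_trans ?_ (le_abs_self _)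
        have h2 : 0 ≤ (2 * c * log q + b * log p) ^ 2 := sq_nonneg _
        have h3 : EE Y L ^ 2 ≤ log p ^ 2 := pow_le_pow_left₀ hE0.le (by linarith) 2
        nlinarith [sq_nonneg (log (p:ℝ))]
      · have hD5 : (D:ℝ) ≤ 5 * h ^ 2 := by
          rw [hDr]
          have h1 : (b:ℝ) ^ 2 ≤ h ^ 2 := sq_le_sq' (by linarith [neg_abs_le (b:ℝ)])
            ((le_abs_self _).trans hb)
          have h2 : -((a:ℝ) * c) ≤ h * h := by
            have : -((a:ℝ) * c) ≤ |(a:ℝ) * c| := neg_le_abs _
            rw [abs_mul] at this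
            exact this.trans (mul_le_mul ha hc (abs_nonneg _) (by linarith))
          nlinarith
        obtain ⟨s, hsd⟩ : ∃ s, s = √(D:ℝ) := ⟨_, rfl⟩
        have hD0 : (0:ℝ) ≤ D := by exact_mod_cast hpos
        have hs0 : 0 ≤ s := by rw [hsd]; exact sqrt_nonneg _
        have hs : s * s = D := by rw [hsd]; exact mul_self_sqrt hD0
        have hs3 : s ≤ 3 * h := by
          rw [hsd, sqrt_le_left (by linarith)]
          nlinarith
        have e2 : (2 * (c:ℝ) * log q + b * log p) ^ 2 - D * log p ^ 2 =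
            (2 * c * log q - (-b + s) * log p) * (2 * c * log q - (-b + -s) * log p) := by
          rw [← hs]; ring
        rw [e2, abs_mul, sq]
        suffices hsuf : EE Y L ≤ |2 * c * log q - (-b + s) * log p| ∧
            EE Y L ≤ |2 * c * log q - (-b + -s) * log p| from
          mul_le_mul hsuf.1 hsuf.2 hE0.le (abs_nonneg _)
        by_cases hirr : Irrational s
        · have e3 : ∀ w : ℝ, 2 * (c:ℝ) * log q - (-b + w) * log p =
              ((2 * c : ℤ) : ℝ) * log q - (((-b : ℤ) : ℝ) + w) * log p := by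
            intro w; push_cast; ring
          rw [e3, e3]
          refine ⟨S.quad s hs hirr (by omega) (by push_cast; linarith) ?_,
            S.quad (-s) (by rw [neg_mul_neg, hs]) hirr.neg (by omega) (by push_cast; linarith) ?_⟩
          · push_cast
            rw [abs_neg, abs_of_nonneg hs0]
            linarith
          · push_cast
            rw [abs_neg, abs_neg, abs_of_nonneg hs0]
            linarith
        · rw [hsd, irrational_sqrt_intCast_iff_of_nonneg hpos, not_not] at hirr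
          obtain ⟨d, hd⟩ := hirr
          have hsq : s ^ 2 = (d:ℝ) ^ 2 := by
            rw [sq, hs, hd]; push_cast; ring
          have hcases : ∃ e : ℤ, s = e := by
            rcases sq_eq_sq_iff_eq_or_eq_neg.1 hsq with h' | h'
            · exact ⟨d, h'⟩
            · exact ⟨-d, by push_cast; exact h'⟩
          obtain ⟨e, he⟩ := hcases
          have hle : ∀ w : ℝ, |w| ≤ 3 * h → |(b:ℝ) - w| ≤ H := fun w hw => by
            have := abs_sub (b:ℝ) w
            linarith
          have h2c : |((2 * c : ℤ) : ℝ)| ≤ H := by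
            push_cast
            rw [abs_of_pos (by linarith)]
            linarith
          have hes : |(e:ℝ)| ≤ 3 * h := by rw [← he, abs_of_nonneg hs0]; exact hs3
          constructor
          · have e4 : 2 * (c:ℝ) * log q - (-b + s) * log p =
                ((b - e : ℤ) : ℝ) * log p + ((2 * c : ℤ) : ℝ) * log q := by
              rw [he]; push_cast; ring
            rw [e4]
            refine S.lin ?_ h2c ?_
            · push_cast
              exact hle _ hes
            · omega
          · have e4 : 2 * (c:ℝ) * log q - (-b + -s) * log p =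
                ((b - -e : ℤ) : ℝ) * log p + ((2 * c : ℤ) : ℝ) * log q := by
              rw [he]; push_cast; ring
            rw [e4]
            refine S.lin ?_ h2c ?_
            · push_cast
              exact hle _ (by rwa [abs_neg])
            · omega
  rcases le_or_gt 0 c with h0 | h0
  · exact main a b c ha hb hc hne h0
  · have e1 : ((-a : ℤ) : ℝ) * log p ^ 2 + ((-b : ℤ) : ℝ) * (log p * log q) +
        ((-c : ℤ) : ℝ) * log q ^ 2 =
        -((a:ℝ) * log p ^ 2 + b * (log p * log q) + c * log q ^ 2) := by push_cast; ring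
    have h1 := main (-a) (-b) (-c) (by push_cast; rwa [abs_neg]) (by push_cast; rwa [abs_neg])
      (by push_cast; rwa [abs_neg]) (by omega) (by omega)
    rwa [e1, abs_neg] at h1

end

end Pool.Agent.K4H73.QF
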