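import Mathlib
import Pool.Agent.K4H73.QF.Mono

/-!
# The numbers `log log (e ^ w + c) - log w`
-/

set_option autoImplicit false

namespace Pool.Agent.K4H73.QF

open Real

/-- `log log (e ^ w + c) - log w` -/
noncomputable def lam (c w : ℝ) : ℝ := log (log (exp w + c)) - log w

/-- its absolute value -/
noncomputable def psi (c w : ℝ) : ℝ := |lam c w|

section
variable {c w w' : ℝ}

lemma one_add_pos (h : 1 < exp w + c) : 0 < 1 + c * exp (-w) := by
  have h1 : 1 + c * exp (-w) = (exp w + c) * exp (-w) := by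
    rw [add_mul, ← exp_add, add_neg_cancel, exp_zero]
  rw [h1]
  exact mul_pos (by linarith) (exp_pos _)

lemma log_exp_add (h : 1 < exp w + c) : log (exp w + c) = w + log (1 + c * exp (-w)) := by
  have h1 : exp w + c = exp w * (1 + c * exp (-w)) := by
    rw [mul_add, mul_one, mul_left_comm, ← exp_add, add_neg_cancel, exp_zero, mul_one]
  rw [h1, log_mul (exp_pos _).ne' (one_add_pos h).ne', log_exp]

lemma lam_eq (hw : 0 < w) (h : 1 < exp w + c) :
    lam c w = log (1 + log (1 + c * exp (-w)) / w) := by
  have h1 : 0 < log (exp w + c) := log_pos h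
  unfold lam
  rw [← log_div h1.ne' hw.ne', log_exp_add h]
  congr 1
  field_simp

lemma one_add_r_pos (hw : 0 < w) (h : 1 < exp w + c) :
    0 < 1 + log (1 + c * exp (-w)) / w := by
  have h1 : 0 < log (exp w + c) := log_pos h
  rw [log_exp_add h] at h1
  have h2 : 1 + log (1 + c * exp (-w)) / w = (w + log (1 + c * exp (-w))) / w := by field_simp
  rw [h2]
  positivity

lemma lam_pos (hc : 0 < c) (hw : 0 < w) : 0 < lam c w := by
  have hw1 : 1 < exp w := one_lt_exp_iff.2 hw
  rw [lam_eq hw (by linarith)]
  apply log_pos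
  have h1 : 0 < c * exp (-w) := mul_pos hc (exp_pos _)
  have h2 : 0 < log (1 + c * exp (-w)) := log_pos (by linarith)
  have : 0 < log (1 + c * exp (-w)) / w := by positivity
  linarith

lemma lam_neg (hc : c < 0) (hw : 0 < w) (h : 1 < exp w + c) : lam c w < 0 := by
  rw [lam_eq hw h]
  have h1 : c * exp (-w) < 0 := mul_neg_of_neg_of_pos hc (exp_pos _)
  have h2 : log (1 + c * exp (-w)) < 0 := log_neg (one_add_pos h) (by linarith)
  apply log_neg (one_add_r_pos hw h)
  have : log (1 + c * exp (-w)) / w < 0 := div_neg_of_neg_of_pos h2 hw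
  linarith

lemma psi_pos (hc : c ≠ 0) (hw : 0 < w) (h : 1 < exp w + c) : 0 < psi c w := by
  unfold psi
  rw [abs_pos]
  rcases lt_or_gt_of_ne hc with h1 | h1
  · exact (lam_neg h1 hw h).ne
  · exact (lam_pos h1 hw).ne'

lemma psi_lt (hc : c ≠ 0) (hw : 0 < w) (h : 1 < exp w + c) (hww : w < w') :
    psi c w' < psi c w := by
  have hw' : 0 < w' := hw.trans hww
  have he : exp (-w') < exp (-w) := exp_lt_exp.2 (by linarith)
  have h' : 1 < exp w' + c := by linarith [exp_lt_exp.2 hww]
  unfold psi
  rcases lt_or_gt_of_ne hc with h1 | h1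
  · rw [abs_of_neg (lam_neg h1 hw h), abs_of_neg (lam_neg h1 hw' h'), neg_lt_neg_iff,
      lam_eq hw h, lam_eq hw' h']
    apply log_lt_log (one_add_r_pos hw h)
    have h2 : c * exp (-w) < c * exp (-w') := mul_lt_mul_of_neg_left he h1
    have h3 : log (1 + c * exp (-w)) < log (1 + c * exp (-w')) :=
      log_lt_log (one_add_pos h) (by linarith)
    have h4 : log (1 + c * exp (-w')) < 0 :=
      log_neg (one_add_pos h') (by linarith [mul_neg_of_neg_of_pos h1 (exp_pos (-w'))])
    have h5 : log (1 + c * exp (-w)) / w < log (1 + c * exp (-w')) / w :=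
      div_lt_div_of_pos_right h3 hw
    have h6 : log (1 + c * exp (-w')) / w ≤ log (1 + c * exp (-w')) / w' := by
      rw [div_le_div_iff₀ hw hw']
      nlinarith
    linarith
  · rw [abs_of_pos (lam_pos h1 hw), abs_of_pos (lam_pos h1 hw'), lam_eq hw h, lam_eq hw' h']
    apply log_lt_log (one_add_r_pos hw' h')
    have h2 : c * exp (-w') < c * exp (-w) := mul_lt_mul_of_pos_left he h1
    have h3 : log (1 + c * exp (-w')) < log (1 + c * exp (-w)) :=
      log_lt_log (one_add_pos h') (by linarith)
    have h4 : 0 < log (1 + c * exp (-w')) := log_pos (by linarith [mul_pos h1 (exp_pos (-w'))])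
    have h5 : log (1 + c * exp (-w')) / w' < log (1 + c * exp (-w)) / w := by
      rw [div_lt_div_iff₀ hw' hw]
      nlinarith
    linarith

lemma psi_le (hc : c ≠ 0) (hw : 0 < w) (h : 1 < exp w + c) (hww : w ≤ w') :
    psi c w' ≤ psi c w := by
  rcases hww.eq_or_lt with h1 | h1
  · rw [h1]
  · exact (psi_lt hc hw h h1).le

lemma aux_div {z : ℝ} (h : 1 - z ≠ 0) : z / (1 - z) = (1 - z)⁻¹ - 1 := by
  rw [eq_sub_iff_add_eq, div_add_one h, add_sub_cancel, one_div]

lemma aux_div' {z : ℝ} (h : 1 + z ≠ 0) : 1 - (1 + z)⁻¹ = z / (1 + z) := by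
  rw [sub_eq_iff_eq_add, ← one_div, ← add_div, add_comm z 1, div_self h]

/-- two-sided bounds -/
lemma psi_bounds (hc : c ≠ 0) (hw : 1 ≤ w) (hz : |c| * exp (-w) ≤ 1 / 8) :
    (1 - 4 * (|c| * exp (-w))) * (|c| * exp (-w)) ≤ psi c w * w ∧
      psi c w * w ≤ (1 + 4 * (|c| * exp (-w))) * (|c| * exp (-w)) := by
  have hw0 : 0 < w := by linarith
  have hc0 : 0 < |c| := abs_pos.2 hc
  obtain ⟨z, hzd⟩ : ∃ z, z = |c| * exp (-w) := ⟨_, rfl⟩
  have hz0 : 0 < z := by rw [hzd]; exact mul_pos hc0 (exp_pos _)
  rw [← hzd] at hz ⊢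
  have h : 1 < exp w + c := by
    have h1 : exp w * z = |c| := by
      rw [hzd, mul_left_comm, ← exp_add, add_neg_cancel, exp_zero, mul_one]
    have h2 : 2 ≤ exp w := by linarith [add_one_le_exp w]
    have h3 : |c| ≤ exp w / 8 := by rw [← h1]; nlinarith
    have h4 := neg_abs_le c
    linarith
  unfold psi
  rcases lt_or_gt_of_ne hc with h1 | h1
  · have e1 : c * exp (-w) = -z := by rw [hzd, abs_of_neg h1]; ring
    rw [abs_of_neg (lam_neg h1 hw0 h), lam_eq hw0 h, e1, ← sub_eq_add_neg]
    obtain ⟨n, hn⟩ : ∃ n, n = -log (1 - z) := ⟨_, rfl⟩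
    have e2 : log (1 - z) / w = -(n / w) := by rw [hn]; ring
    rw [e2, ← sub_eq_add_neg]
    have hn1 : z ≤ n := by
      have := log_le_sub_one_of_pos (by linarith : 0 < 1 - z)
      linarith
    have hn2 : n ≤ z / (1 - z) := by
      have := one_sub_inv_le_log_of_pos (by linarith : 0 < 1 - z)
      rw [aux_div (by linarith)]
      linarith
    have hn3 : n ≤ 8 / 7 * z := by
      refine hn2.trans ?_
      rw [div_le_iff₀ (by linarith)]
      nlinarith
    have hr : n / w ≤ n := div_le_self (by linarith) hw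
    have hr0 : 0 < n / w := div_pos (by linarith) hw0
    have hlow : n / w ≤ -log (1 - n / w) := by
      have := log_le_sub_one_of_pos (by linarith : 0 < 1 - n / w)
      linarith
    have hupp : -log (1 - n / w) ≤ (n / w) / (1 - n / w) := by
      have := one_sub_inv_le_log_of_pos (by linarith : 0 < 1 - n / w)
      rw [aux_div (by linarith)]
      linarith
    constructor
    · have h3 : n ≤ -log (1 - n / w) * w := by
        have := mul_le_mul_of_nonneg_right hlow hw0.le
        rwa [div_mul_cancel₀ _ hw0.ne'] at this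
      nlinarith
    · have h3 : -log (1 - n / w) * w ≤ n / (1 - n / w) := by
        have := mul_le_mul_of_nonneg_right hupp hw0.le
        have e3 : (n / w) / (1 - n / w) * w = n / (1 - n / w) := by
          field_simp
        rwa [e3] at this
      refine h3.trans ?_
      have h4 : n / (1 - n / w) ≤ n / (1 - n) := by
        apply div_le_div_of_nonneg_left (by linarith) (by linarith) (by linarith)
      refine h4.trans ?_
      rw [div_le_iff₀ (by linarith)]
      have h5 : n * (1 - z) ≤ z := by
        rwa [le_div_iff₀ (by linarith)] at hn2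
      nlinarith
  · have e1 : c * exp (-w) = z := by rw [hzd, abs_of_pos h1]
    rw [abs_of_pos (lam_pos h1 hw0), lam_eq hw0 h, e1]
    obtain ⟨n, hn⟩ : ∃ n, n = log (1 + z) := ⟨_, rfl⟩
    rw [← hn]
    have hn1 : n ≤ z := by
      have := log_le_sub_one_of_pos (by linarith : 0 < 1 + z)
      linarith
    have hn2 : z / (1 + z) ≤ n := by
      have := one_sub_inv_le_log_of_pos (by linarith : 0 < 1 + z)
      rw [← aux_div' (by linarith)]
      linarith
    have hn3 : z * (1 - z) ≤ n := by
      refine le_trans ?_ hn2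
      rw [le_div_iff₀ (by linarith)]
      have h0 : z * (1 - z) * (1 + z) = z - z ^ 3 := by ring
      rw [h0]
      have := pow_pos hz0 3
      linarith
    have hn0 : 0 < n := by nlinarith
    have hr : n / w ≤ n := div_le_self hn0.le hw
    have hr0 : 0 < n / w := by positivity
    have hupp : log (1 + n / w) ≤ n / w := by
      have := log_le_sub_one_of_pos (by linarith : 0 < 1 + n / w)
      linarith
    have hlow : (n / w) * (1 - n / w) ≤ log (1 + n / w) := by
      have := one_sub_inv_le_log_of_pos (by linarith : 0 < 1 + n / w)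
      rw [aux_div' (by linarith)] at this
      refine le_trans ?_ this
      rw [le_div_iff₀ (by linarith)]
      have h0 : (n / w) * (1 - n / w) * (1 + n / w) = n / w - (n / w) ^ 3 := by ring
      rw [h0]
      have := pow_pos hr0 3
      linarith
    constructor
    · have h3 := mul_le_mul_of_nonneg_right hlow hw0.le
      have e3 : (n / w) * (1 - n / w) * w = n * (1 - n / w) := by field_simp
      rw [e3] at h3
      refine le_trans ?_ h3
      have h4 : 1 - z ≤ 1 - n / w := by linarith
      have h5 : z * (1 - z) * (1 - z) ≤ n * (1 - n / w) :=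
        mul_le_mul hn3 h4 (by linarith) hn0.le
      nlinarith
    · have h3 := mul_le_mul_of_nonneg_right hupp hw0.le
      rw [div_mul_cancel₀ _ hw0.ne'] at h3
      nlinarith

end

end Pool.Agent.K4H73.QF
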