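import Mathlib
import Pool.Agent.K4H73.QF.Psi

/-!
# Singular arrays of numbers `w` and `log (e ^ w + c)` whose main terms `w` form a singular array
-/

set_option autoImplicit false

namespace Pool.Agent.K4H73.QF

open Real

/-- an entry: `A` is `w` or `log (e ^ w + c)` -/
def IsEnt (c w A : ℝ) : Prop := A = w ∨ (1 < exp w + c ∧ A = log (exp w + c))

lemma IsEnt.mu {c w A : ℝ} (h : IsEnt c w A) (hw : 0 < w) {σ : ℝ}
    (hσ : ∀ w, 0 < w → 1 < exp w + c → lam c w = σ * psi c w) :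
    0 < A ∧ ∃ μ, log A = log w + σ * μ ∧ ((A = w ∧ μ = 0) ∨
      (1 < exp w + c ∧ A = log (exp w + c) ∧ μ = psi c w)) := by
  rcases h with h | ⟨h1, h2⟩
  · exact ⟨by rw [h]; exact hw, 0, by rw [h, mul_zero, add_zero], Or.inl ⟨h, rfl⟩⟩
  · refine ⟨by rw [h2]; exact log_pos h1, psi c w, ?_, Or.inr ⟨h1, h2, rfl⟩⟩
    rw [← hσ w hw h1, h2]
    unfold lam
    ring

theorem patterns {c w₁ w₂ w₃ w₄ A₁ A₂ A₃ A₄ : ℝ} (hc : c ≠ 0) (h1 : 0 < w₁) (h12 : w₁ ≤ w₂)
    (h13 : w₁ ≤ w₃) (hw : w₁ * w₄ = w₂ * w₃) (hA : A₁ * A₄ = A₂ * A₃)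
    (e1 : IsEnt c w₁ A₁) (e2 : IsEnt c w₂ A₂) (e3 : IsEnt c w₃ A₃) (e4 : IsEnt c w₄ A₄) :
    (A₁ = w₁ ∧ A₂ = w₂ ∧ A₃ = w₃ ∧ A₄ = w₄) ∨ (A₁ = A₂ ∧ A₃ = A₄) ∨ (A₁ = A₃ ∧ A₂ = A₄) ∨
    (w₁ < w₂ ∧ w₁ < w₃ ∧ 1 < exp w₁ + c ∧ A₁ = log (exp w₁ + c) ∧
      psi c w₁ = psi c w₂ + psi c w₃) := by
  have h2 : 0 < w₂ := by linarith
  have h3 : 0 < w₃ := by linarith
  have hw4 : w₄ = w₂ * w₃ / w₁ := by rw [← hw]; field_simp
  have h4 : 0 < w₄ := by rw [hw4]; positivity
  have h24 : w₂ ≤ w₄ := by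
    rw [hw4, le_div_iff₀ h1]
    exact mul_le_mul_of_nonneg_left h13 h2.le
  have h34 : w₃ ≤ w₄ := by
    rw [hw4, le_div_iff₀ h1, mul_comm]
    exact mul_le_mul_of_nonneg_right h12 h3.le
  have q12 : w₁ = w₂ → w₃ = w₄ := fun h => by
    rw [h] at hw
    exact (mul_left_cancel₀ h2.ne' hw).symm
  have q13 : w₁ = w₃ → w₂ = w₄ := fun h => by
    rw [h, mul_comm] at hw
    exact (mul_right_cancel₀ h3.ne' hw).symm
  have q24 : w₂ = w₄ → w₁ = w₃ := fun h => by
    rw [h, mul_comm] at hw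
    exact mul_left_cancel₀ h4.ne' hw
  have q34 : w₃ = w₄ → w₁ = w₂ := fun h => by
    rw [h] at hw
    exact mul_right_cancel₀ h4.ne' hw
  obtain ⟨σ, hσ0, hσ⟩ : ∃ σ : ℝ, σ ≠ 0 ∧
      ∀ w, 0 < w → 1 < exp w + c → lam c w = σ * psi c w := by
    rcases lt_or_gt_of_ne hc with h | h
    · refine ⟨-1, by norm_num, fun w hw0 hd => ?_⟩
      unfold psi
      rw [abs_of_neg (lam_neg h hw0 hd)]
      ring
    · refine ⟨1, by norm_num, fun w hw0 hd => ?_⟩
      unfold psi
      rw [abs_of_pos (lam_pos h hw0), one_mul]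
  obtain ⟨p1, μ₁, l1, k1⟩ := e1.mu h1 hσ
  obtain ⟨p2, μ₂, l2, k2⟩ := e2.mu h2 hσ
  obtain ⟨p3, μ₃, l3, k3⟩ := e3.mu h3 hσ
  obtain ⟨p4, μ₄, l4, k4⟩ := e4.mu h4 hσ
  have hrel : μ₁ + μ₄ = μ₂ + μ₃ := by
    have ha := congrArg log hA
    have hb := congrArg log hw
    rw [log_mul p1.ne' p4.ne', log_mul p2.ne' p3.ne'] at ha
    rw [log_mul h1.ne' h4.ne', log_mul h2.ne' h3.ne'] at hb
    have hcc : σ * (μ₁ + μ₄) = σ * (μ₂ + μ₃) := by linarith
    exact mul_left_cancel₀ hσ0 hcc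
  rcases k1 with ⟨a1, m1⟩ | ⟨d1, a1, m1⟩
  · rcases k2 with ⟨a2, m2⟩ | ⟨d2, a2, m2⟩
    · rcases k3 with ⟨a3, m3⟩ | ⟨d3, a3, m3⟩
      · rcases k4 with ⟨a4, m4⟩ | ⟨d4, a4, m4⟩
        · exact Or.inl ⟨a1, a2, a3, a4⟩
        · exfalso
          have := psi_pos hc h4 d4
          linarith
      · rcases k4 with ⟨a4, m4⟩ | ⟨d4, a4, m4⟩
        · exfalso
          have := psi_pos hc h3 d3
          linarith
        · rcases h34.eq_or_lt with h | h
          · exact Or.inr (Or.inl ⟨by rw [a1, a2, q34 h], by rw [a3, a4, h]⟩)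
          · exfalso
            have := psi_lt hc h3 d3 h
            linarith
    · rcases k3 with ⟨a3, m3⟩ | ⟨d3, a3, m3⟩
      · rcases k4 with ⟨a4, m4⟩ | ⟨d4, a4, m4⟩
        · exfalso
          have := psi_pos hc h2 d2
          linarith
        · rcases h24.eq_or_lt with h | h
          · exact Or.inr (Or.inr (Or.inl ⟨by rw [a1, a3, q24 h], by rw [a2, a4, h]⟩))
          · exfalso
            have := psi_lt hc h2 d2 h
            linarith
      · exfalso
        have g2 := psi_pos hc h2 d2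
        have g3 := psi_pos hc h3 d3
        rcases k4 with ⟨a4, m4⟩ | ⟨d4, a4, m4⟩
        · linarith
        · have := psi_le hc h2 d2 h24
          linarith
  · have g1 := psi_pos hc h1 d1
    rcases k2 with ⟨a2, m2⟩ | ⟨d2, a2, m2⟩
    · rcases k3 with ⟨a3, m3⟩ | ⟨d3, a3, m3⟩
      · exfalso
        rcases k4 with ⟨a4, m4⟩ | ⟨d4, a4, m4⟩
        · linarith
        · have := psi_pos hc h4 d4
          linarith
      · rcases k4 with ⟨a4, m4⟩ | ⟨d4, a4, m4⟩
        · rcases h13.eq_or_lt with h | h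
          · exact Or.inr (Or.inr (Or.inl ⟨by rw [a1, a3, h], by rw [a2, a4, q13 h]⟩))
          · exfalso
            have := psi_lt hc h1 d1 h
            linarith
        · exfalso
          have := psi_pos hc h4 d4
          have := psi_le hc h1 d1 h13
          linarith
    · rcases k3 with ⟨a3, m3⟩ | ⟨d3, a3, m3⟩
      · rcases k4 with ⟨a4, m4⟩ | ⟨d4, a4, m4⟩
        · rcases h12.eq_or_lt with h | h
          · exact Or.inr (Or.inl ⟨by rw [a1, a2, h], by rw [a3, a4, q12 h]⟩)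
          · exfalso
            have := psi_lt hc h1 d1 h
            linarith
        · exfalso
          have := psi_pos hc h4 d4
          have := psi_le hc h1 d1 h12
          linarith
      · have g2 := psi_pos hc h2 d2
        have g3 := psi_pos hc h3 d3
        rcases k4 with ⟨a4, m4⟩ | ⟨d4, a4, m4⟩
        · refine Or.inr (Or.inr (Or.inr ⟨?_, ?_, d1, a1, by linarith⟩))
          · rcases h12.eq_or_lt with h | h
            · rw [← h] at m2
              linarith
            · exact h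
          · rcases h13.eq_or_lt with h | h
            · rw [← h] at m3
              linarith
            · exact h
        · -- all four
          rcases h12.eq_or_lt with h | h
          · exact Or.inr (Or.inl ⟨by rw [a1, a2, h], by rw [a3, a4, q12 h]⟩)
          · rcases h13.eq_or_lt with h' | h'
            · exact Or.inr (Or.inr (Or.inl ⟨by rw [a1, a3, h'], by rw [a2, a4, q13 h']⟩))
            · exfalso
              have hρ : 1 < w₂ / w₁ := by rw [lt_div_iff₀ h1]; linarith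
              have := mono_ne (x := exp w₁) (y := exp w₃) hc hρ (one_lt_exp_iff.2 h1)
                (exp_lt_exp.2 h') d1
              apply this
              have x1 : exp w₁ ^ (w₂ / w₁) = exp w₂ := by
                rw [← exp_mul]
                congr 1
                field_simp
              have x2 : exp w₃ ^ (w₂ / w₁) = exp w₄ := by
                rw [← exp_mul, hw4]
                congr 1
                field_simp
              rw [x1, x2, ← a1, ← a2, ← a3, ← a4, hA]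

end Pool.Agent.K4H73.QF
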