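import Mathlib
import Pool.Agent.K4H73.QF.Psi

/-!
# The case in which exactly the largest entry has no shift
-/

set_option autoImplicit false

namespace Pool.Agent.K4H73.QF

open Real

lemma frac_ineq {s u : ℝ} (hs : 1 ≤ s) (hu : 2 ≤ u) :
    1 / (4 * (u + 1)) ≤ 1 - (s / ((s + 1) * u) + u / (u + s)) := by
  have e1 : 1 - (s / ((s + 1) * u) + u / (u + s)) =
      s ^ 2 * (u - 1) / ((u + s) * ((s + 1) * u)) := by
    field_simp
    ring
  rw [e1, div_le_div_iff₀ (by positivity) (by positivity)]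
  have h1 : 3 * u ^ 2 ≤ 4 * ((u - 1) * (u + 1)) := by nlinarith
  have h2 : (u + s) * ((s + 1) * u) ≤ 3 * (s ^ 2 * u ^ 2) := by
    have a1 : u * u * s ≤ s ^ 2 * u ^ 2 := by nlinarith [mul_nonneg (sq_nonneg u) (by nlinarith : 0 ≤ s ^ 2 - s)]
    have a2 : u * u ≤ s ^ 2 * u ^ 2 := by nlinarith [mul_nonneg (sq_nonneg u) (by nlinarith : 0 ≤ s ^ 2 - 1)]
    have a3 : 2 * (s ^ 2 * u) ≤ s ^ 2 * u ^ 2 := by nlinarith [mul_nonneg (sq_nonneg s) (by nlinarith : 0 ≤ u ^ 2 - 2 * u)]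
    have a4 : s * u ≤ s ^ 2 * u := by nlinarith [mul_nonneg (by linarith : (0:ℝ) ≤ u) (by nlinarith : 0 ≤ s ^ 2 - s)]
    nlinarith
  have h3 : s ^ 2 * (3 * u ^ 2) ≤ s ^ 2 * (4 * ((u - 1) * (u + 1))) :=
    mul_le_mul_of_nonneg_left h1 (sq_nonneg s)
  nlinarith

lemma quant {c w₁ w₂ w₃ E : ℝ} {s t u v : ℕ} (hc : c ≠ 0) (h1 : 1 ≤ w₁)
    (hz : |c| * exp (-w₁) ≤ 1 / 8) (h12 : w₁ < w₂) (h13 : w₁ < w₃)
    (hψ : psi c w₁ = psi c w₂ + psi c w₃) (hs : 1 ≤ s) (hu : 2 ≤ u)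
    (e1 : w₁ = s * log u) (e2 : w₂ = t * log u) (e3 : w₃ = s * log v) (hE : 0 < E)
    (hE1 : E ≤ 1 / 2) (hEw : E ≤ w₃ - w₁) : E ≤ 144 * (|c| * exp (-w₁)) := by
  have hc0 : 0 < |c| := abs_pos.2 hc
  obtain ⟨z, hzd⟩ : ∃ z, z = |c| * exp (-w₁) := ⟨_, rfl⟩
  have hz0 : 0 < z := by rw [hzd]; exact mul_pos hc0 (exp_pos _)
  obtain ⟨T₂, hT₂⟩ : ∃ T, T = exp (-(w₂ - w₁)) := ⟨_, rfl⟩
  obtain ⟨T₃, hT₃⟩ : ∃ T, T = exp (-(w₃ - w₁)) := ⟨_, rfl⟩
  have hT₂0 : 0 < T₂ := by rw [hT₂]; exact exp_pos _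
  have hT₃0 : 0 < T₃ := by rw [hT₃]; exact exp_pos _
  have hT₂1 : T₂ < 1 := by rw [hT₂]; exact exp_lt_one_iff.2 (by linarith)
  have hT₃1 : T₃ < 1 := by rw [hT₃]; exact exp_lt_one_iff.2 (by linarith)
  have z2 : |c| * exp (-w₂) = z * T₂ := by
    rw [hzd, hT₂, mul_assoc, ← exp_add]
    congr 2
    ring
  have z3 : |c| * exp (-w₃) = z * T₃ := by
    rw [hzd, hT₃, mul_assoc, ← exp_add]
    congr 2
    ring
  have zT2 : z * T₂ ≤ z := by nlinarith
  have zT3 : z * T₃ ≤ z := by nlinarith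
  rw [← hzd] at hz ⊢
  have b1 := (psi_bounds hc h1 (by rw [← hzd]; exact hz)).1
  have b2 := (psi_bounds hc (by linarith : 1 ≤ w₂) (by rw [z2]; linarith)).2
  have b3 := (psi_bounds hc (by linarith : 1 ≤ w₃) (by rw [z3]; linarith)).2
  rw [← hzd] at b1
  rw [z2] at b2
  rw [z3] at b3
  have hw1 : 0 < w₁ := by linarith
  have hw2 : 0 < w₂ := by linarith
  have hw3 : 0 < w₃ := by linarith
  have b2' : psi c w₂ * w₂ ≤ (1 + 4 * z) * (z * T₂) := by
    refine b2.trans ?_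
    apply mul_le_mul_of_nonneg_right _ (by positivity)
    linarith
  have b3' : psi c w₃ * w₁ ≤ (1 + 4 * z) * (z * T₃) := by
    have : psi c w₃ * w₁ ≤ psi c w₃ * w₃ :=
      mul_le_mul_of_nonneg_left h13.le (abs_nonneg _)
    refine (this.trans b3).trans ?_
    apply mul_le_mul_of_nonneg_right _ (by positivity)
    linarith
  have b2'' : psi c w₂ * w₁ ≤ (1 + 4 * z) * (z * T₂) * (w₁ / w₂) := by
    have h := mul_le_mul_of_nonneg_right b2' (by positivity : 0 ≤ w₁ / w₂)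
    have e : psi c w₂ * w₂ * (w₁ / w₂) = psi c w₂ * w₁ := by field_simp
    rwa [e] at h
  have main : 1 - 4 * z ≤ (1 + 4 * z) * (T₂ * (w₁ / w₂) + T₃) := by
    have h : (1 - 4 * z) * z ≤ (1 + 4 * z) * (T₂ * (w₁ / w₂) + T₃) * z := by
      rw [hψ] at b1
      nlinarith
    exact le_of_mul_le_mul_right h hz0
  -- the structure
  have hur : (2:ℝ) ≤ u := by exact_mod_cast hu
  have hsr : (1:ℝ) ≤ s := by exact_mod_cast hs
  have hlu : 0 < log (u:ℝ) := log_pos (by linarith)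
  have hst : s + 1 ≤ t := by
    rw [e1, e2] at h12
    have : (s:ℝ) < t := lt_of_mul_lt_mul_right h12 hlu.le
    exact_mod_cast this
  have hstr : (s:ℝ) + 1 ≤ t := by exact_mod_cast hst
  have huv : u + 1 ≤ v := by
    rw [e1, e3] at h13
    have h3 : log (u:ℝ) < log v := lt_of_mul_lt_mul_left h13 (by linarith)
    have hv0 : (0:ℝ) < v := by
      by_contra h0
      have : (v:ℝ) = 0 := le_antisymm (not_lt.1 h0) (Nat.cast_nonneg _)
      rw [this, log_zero] at h3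
      linarith
    have : (u:ℝ) < v := (log_lt_log_iff (by linarith) hv0).1 h3
    exact_mod_cast this
  have huvr : (u:ℝ) + 1 ≤ v := by exact_mod_cast huv
  have hT2u : T₂ ≤ 1 / u := by
    rw [hT₂, one_div, ← exp_log (by linarith : (0:ℝ) < u), ← exp_neg, exp_le_exp, e1, e2]
    nlinarith
  have hw12 : w₁ / w₂ ≤ s / (s + 1) := by
    rw [e1, e2, mul_div_mul_right _ _ hlu.ne']
    exact div_le_div_of_nonneg_left (by linarith) (by linarith) hstr
  have hT3u : T₃ ≤ u / (u + s) := by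
    have h3 : 1 + (s:ℝ) * (1 / u) ≤ (1 + 1 / u) ^ s :=
      one_add_mul_le_pow (by have : (0:ℝ) ≤ 1 / u := by positivity
                             linarith) s
    have h4 : (1 + 1 / (u:ℝ)) ^ s ≤ exp (w₃ - w₁) := by
      have h5 : exp (w₃ - w₁) = ((v:ℝ) / u) ^ s := by
        rw [e1, e3, ← mul_sub, ← log_div (by linarith) (by linarith), exp_nat_mul,
          exp_log (by apply div_pos <;> linarith)]
      rw [h5]
      apply pow_le_pow_left₀ (by positivity)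
      rw [le_div_iff₀ (by linarith)]
      have : (1 + 1 / (u:ℝ)) * u = u + 1 := by field_simp
      linarith
    have h6 : exp (w₃ - w₁) * T₃ = 1 := by
      rw [hT₃, ← exp_add, add_neg_cancel, exp_zero]
    rw [le_div_iff₀ (by linarith)]
    have h7 : ((u:ℝ) + s) = u * (1 + s * (1 / u)) := by field_simp
    rw [h7]
    have h8 : T₃ * (1 + s * (1 / u)) ≤ 1 := by
      have h9 : T₃ * (1 + s * (1 / u)) ≤ T₃ * exp (w₃ - w₁) :=
        mul_le_mul_of_nonneg_left (h3.trans h4) hT₃0.le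
      linarith
    nlinarith
  have hP : T₂ * (w₁ / w₂) ≤ s / ((s + 1) * u) := by
    calc T₂ * (w₁ / w₂) ≤ (1 / u) * (s / (s + 1)) :=
          mul_le_mul hT2u hw12 (by positivity) (by positivity)
      _ = s / ((s + 1) * u) := by field_simp
  have hfr := frac_ineq hsr hur
  have hfr0 : (0:ℝ) < 1 / (4 * (u + 1)) := by positivity
  have hsum : T₂ * (w₁ / w₂) + T₃ ≤ 1 := by linarith
  have main2 : 1 - 8 * z ≤ T₂ * (w₁ / w₂) + T₃ := by nlinarith
  have hA : 1 / (4 * ((u:ℝ) + 1)) ≤ 8 * z := by linarith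
  have hB : 1 / (u:ℝ) ≤ 64 * z := by
    have h3 : 1 / (u:ℝ) ≤ 8 * (1 / (4 * (u + 1))) := by
      rw [mul_one_div, div_le_div_iff₀ (by linarith) (by linarith)]
      linarith
    linarith
  have hP' : T₂ * (w₁ / w₂) ≤ 1 / u := by
    calc T₂ * (w₁ / w₂) ≤ (1 / u) * 1 := by
          apply mul_le_mul hT2u _ (by positivity) (by positivity)
          rw [div_le_one hw2]
          exact h12.le
      _ = 1 / u := mul_one _
  have hT3E : T₃ ≤ 1 - E / 2 := by
    have h3 : T₃ ≤ exp (-E) := by rw [hT₃]; exact exp_le_exp.2 (by linarith)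
    have h4 : exp (-E) ≤ 1 / (1 + E) := by
      rw [exp_neg, ← one_div]
      apply one_div_le_one_div_of_le (by linarith)
      linarith [add_one_le_exp E]
    have h5 : 1 / (1 + E) ≤ 1 - E / 2 := by
      rw [div_le_iff₀ (by linarith)]
      nlinarith
    linarith
  linarith

end Pool.Agent.K4H73.QF
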