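import Mathlib
import Pool.Agent.K4H73.QF.Form
import Pool.Agent.K4H73.QF.Patterns
import Pool.Agent.K4H73.QF.Quant
import Pool.Agent.K4H73.NP.CaseE

/-!
# Singular arrays of logarithms of the numbers `n` and `n + c`, `n = p ^ x q ^ y`
-/

set_option autoImplicit false

namespace Pool.Agent.K4H73.QF

open Real Pool.Agent.K4H73.NP

/-- the common direction of two proportional vectors, and of the other row -/
lemma dir {x₁ y₁ x₂ y₂ x₃ y₃ x₄ y₄ : ℕ} (h1 : 0 < x₁ + y₁) (h2 : 0 < x₂ + y₂)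
    (hd : x₂ * y₁ = y₂ * x₁) (ha : x₁ * x₄ = x₂ * x₃)
    (hb : x₁ * y₄ + y₁ * x₄ = x₂ * y₃ + y₂ * x₃) (hc : y₁ * y₄ = y₂ * y₃) :
    ∃ s t x₀ y₀ x' y' : ℕ, 1 ≤ s ∧ 1 ≤ t ∧ 0 < x₀ + y₀ ∧ x₁ = s * x₀ ∧ y₁ = s * y₀ ∧
      x₂ = t * x₀ ∧ y₂ = t * y₀ ∧ x₃ = s * x' ∧ y₃ = s * y' ∧ x₄ = t * x' ∧ y₄ = t * y' := by
  obtain ⟨g, s, t, hg, hcop, e1, e2⟩ := Nat.exists_coprime' (m := x₁ + y₁) (n := x₂ + y₂)
    (Nat.gcd_pos_of_pos_left _ h1)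
  have hs : 1 ≤ s := by
    rcases Nat.eq_zero_or_pos s with h | h
    · rw [h, zero_mul] at e1; omega
    · exact h
  have ht : 1 ≤ t := by
    rcases Nat.eq_zero_or_pos t with h | h
    · rw [h, zero_mul] at e2; omega
    · exact h
  have c1 : x₁ * t = x₂ * s := by
    have h3 : (x₁ * t) * g = (x₂ * s) * g := by
      calc (x₁ * t) * g = x₁ * (t * g) := by ring
        _ = x₁ * (x₂ + y₂) := by rw [e2]
        _ = x₁ * x₂ + y₂ * x₁ := by ring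
        _ = x₁ * x₂ + x₂ * y₁ := by rw [hd]
        _ = x₂ * (x₁ + y₁) := by ring
        _ = (x₂ * s) * g := by rw [e1]; ring
    exact Nat.eq_of_mul_eq_mul_right hg h3
  have c2 : y₁ * t = y₂ * s := by
    have h3 : (y₁ * t) * g = (y₂ * s) * g := by
      calc (y₁ * t) * g = y₁ * (t * g) := by ring
        _ = y₁ * (x₂ + y₂) := by rw [e2]
        _ = x₂ * y₁ + y₂ * y₁ := by ring
        _ = y₂ * x₁ + y₂ * y₁ := by rw [hd]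
        _ = y₂ * (x₁ + y₁) := by ring
        _ = (y₂ * s) * g := by rw [e1]; ring
    exact Nat.eq_of_mul_eq_mul_right hg h3
  obtain ⟨x₀, hx₀⟩ : s ∣ x₁ := hcop.dvd_of_dvd_mul_right ⟨x₂, by rw [c1]; ring⟩
  obtain ⟨y₀, hy₀⟩ : s ∣ y₁ := hcop.dvd_of_dvd_mul_right ⟨y₂, by rw [c2]; ring⟩
  have hx2 : x₂ = t * x₀ := by
    rw [hx₀] at c1
    exact (Nat.eq_of_mul_eq_mul_right hs (by linarith)).symm
  have hy2 : y₂ = t * y₀ := by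
    rw [hy₀] at c2
    exact (Nat.eq_of_mul_eq_mul_right hs (by linarith)).symm
  have h0 : 0 < x₀ + y₀ := by
    by_contra hcon
    have hx : x₀ = 0 := by omega
    have hy : y₀ = 0 := by omega
    rw [hx₀, hy₀, hx, hy] at h1
    simp at h1
  subst hx₀ hy₀ hx2 hy2
  have key : s * x₄ = t * x₃ ∧ s * y₄ = t * y₃ := by
    rcases Nat.eq_zero_or_pos x₀ with hx | hx
    · have hy : 0 < y₀ := by omega
      subst hx
      constructor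
      · apply Nat.eq_of_mul_eq_mul_left hy
        calc y₀ * (s * x₄) = s * 0 * y₄ + s * y₀ * x₄ := by ring
          _ = t * 0 * y₃ + t * y₀ * x₃ := hb
          _ = y₀ * (t * x₃) := by ring
      · apply Nat.eq_of_mul_eq_mul_left hy
        calc y₀ * (s * y₄) = s * y₀ * y₄ := by ring
          _ = t * y₀ * y₃ := hc
          _ = y₀ * (t * y₃) := by ring
    · have k1 : s * x₄ = t * x₃ := by
        apply Nat.eq_of_mul_eq_mul_left hx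
        calc x₀ * (s * x₄) = s * x₀ * x₄ := by ring
          _ = t * x₀ * x₃ := ha
          _ = x₀ * (t * x₃) := by ring
      refine ⟨k1, ?_⟩
      apply Nat.eq_of_mul_eq_mul_left hx
      have : x₀ * (s * y₄) + y₀ * (s * x₄) = x₀ * (t * y₃) + y₀ * (t * x₃) := by
        calc x₀ * (s * y₄) + y₀ * (s * x₄) = s * x₀ * y₄ + s * y₀ * x₄ := by ring
          _ = t * x₀ * y₃ + t * y₀ * x₃ := hb
          _ = _ := by ring
      rw [k1] at this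
      exact Nat.add_right_cancel this
  obtain ⟨x', hx'⟩ : s ∣ x₃ := hcop.dvd_of_dvd_mul_left ⟨x₄, key.1.symm⟩
  obtain ⟨y', hy'⟩ : s ∣ y₃ := hcop.dvd_of_dvd_mul_left ⟨y₄, key.2.symm⟩
  subst hx' hy'
  refine ⟨s, t, x₀, y₀, x', y', hs, ht, h0, rfl, rfl, rfl, rfl, rfl, rfl, ?_, ?_⟩
  · apply Nat.eq_of_mul_eq_mul_left hs
    linarith [key.1]
  · apply Nat.eq_of_mul_eq_mul_left hs
    linarith [key.2]

/-- the weight `x log p + y log q` -/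
noncomputable def wt (p q x y : ℕ) : ℝ := x * log p + y * log q

/-- the data of an entry with logarithm `A` -/
structure Ent (p q : ℕ) (c ζ ℓ : ℝ) (x y : ℕ) (A : ℝ) : Prop where
  pos : 0 < wt p q x y
  le : A ≤ ℓ
  alt : A = wt p q x y ∨ (1 ≤ wt p q x y ∧ 1 < exp (wt p q x y) + c ∧
    A = log (exp (wt p q x y) + c) ∧ |c| * exp (-wt p q x y) ≤ ζ)

section
variable {p q Y L : ℕ} {H c ζ ℓ : ℝ}

lemma Ent.isEnt {x y : ℕ} {A : ℝ} (E : Ent p q c ζ ℓ x y A) : IsEnt c (wt p q x y) A := by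
  rcases E.alt with h | ⟨-, h1, h2, -⟩
  · exact Or.inl h
  · exact Or.inr ⟨h1, h2⟩

lemma Ent.A_pos {x y : ℕ} {A : ℝ} (E : Ent p q c ζ ℓ x y A) : 0 < A := by
  rcases E.alt with h | ⟨-, h1, h2, -⟩
  · rw [h]; exact E.pos
  · rw [h2]; exact log_pos h1

lemma Ent.close {x y : ℕ} {A : ℝ} (E : Ent p q c ζ ℓ x y A) (hζ : 0 < ζ) (hζ1 : ζ ≤ 1 / 8) :
    |wt p q x y - A| ≤ 2 * ζ := by
  rcases E.alt with h | ⟨-, h1, h2, h3⟩
  · rw [h, sub_self, abs_zero]; linarith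
  · rw [h2, log_exp_add h1]
    obtain ⟨t, ht⟩ : ∃ t, t = c * exp (-wt p q x y) := ⟨_, rfl⟩
    have ht1 : |t| ≤ ζ := by rw [ht, abs_mul, abs_of_pos (exp_pos _)]; exact h3
    rw [← ht]
    have ht2 := abs_le.1 ht1
    have g1 := log_le_sub_one_of_pos (by linarith : 0 < 1 + t)
    have g2 := one_sub_inv_le_log_of_pos (by linarith : 0 < 1 + t)
    rw [aux_div' (by linarith)] at g2
    have g3 : -(2 * ζ) ≤ t / (1 + t) := by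
      rw [le_div_iff₀ (by linarith)]
      nlinarith
    rw [abs_le]
    constructor <;> linarith

lemma Ent.wt_le {x y : ℕ} {A : ℝ} (E : Ent p q c ζ ℓ x y A) (hζ : 0 < ζ) (hζ1 : ζ ≤ 1 / 8)
    (hℓ : 1 ≤ ℓ) : wt p q x y ≤ 2 * ℓ := by
  have h1 := (abs_le.1 (E.close hζ hζ1)).2
  have := E.le
  linarith

lemma Ent.x_le (S : Par p q Y L H) {x y : ℕ} {A : ℝ} (E : Ent p q c ζ ℓ x y A) (hζ : 0 < ζ)
    (hζ1 : ζ ≤ 1 / 8) (hℓ : 1 ≤ ℓ) : (x:ℝ) ≤ 4 * ℓ := by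
  have h1 := E.wt_le hζ hζ1 hℓ
  unfold wt at h1
  have h2 := half_le_log S.hp
  have h3 := half_le_log S.hq
  have h4 : (0:ℝ) ≤ y := Nat.cast_nonneg _
  have h5 : (0:ℝ) ≤ x := Nat.cast_nonneg _
  nlinarith [mul_nonneg h4 (by linarith : 0 ≤ log (q:ℝ)), mul_nonneg h5 (by linarith : 0 ≤ log (p:ℝ) - 1 / 2)]

lemma Ent.y_le (S : Par p q Y L H) {x y : ℕ} {A : ℝ} (E : Ent p q c ζ ℓ x y A) (hζ : 0 < ζ)
    (hζ1 : ζ ≤ 1 / 8) (hℓ : 1 ≤ ℓ) : (y:ℝ) ≤ 4 * ℓ := by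
  have h1 := E.wt_le hζ hζ1 hℓ
  unfold wt at h1
  have h2 := half_le_log S.hp
  have h3 := half_le_log S.hq
  have h4 : (0:ℝ) ≤ y := Nat.cast_nonneg _
  have h5 : (0:ℝ) ≤ x := Nat.cast_nonneg _
  nlinarith [mul_nonneg h5 (by linarith : 0 ≤ log (p:ℝ)), mul_nonneg h4 (by linarith : 0 ≤ log (q:ℝ) - 1 / 2)]

lemma Ent.xy_pos {x y : ℕ} {A : ℝ} (E : Ent p q c ζ ℓ x y A) : 0 < x + y := by
  by_contra h
  have hx : x = 0 := by omega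
  have hy : y = 0 := by omega
  have := E.pos
  unfold wt at this
  rw [hx, hy] at this
  simp at this

/-- the exponents of a singular array satisfy the relations of a singular array of linear forms -/
lemma rel (S : Par p q Y L H) (hζ : 0 < ζ) (hζ1 : ζ ≤ 1 / 8) (hℓ : 1 ≤ ℓ)
    (hH : 128 * ℓ ^ 2 ≤ H) (hbig : 1536 * ζ * ℓ ^ 3 < EE Y L ^ 2)
    {x₁ y₁ x₂ y₂ x₃ y₃ x₄ y₄ : ℕ} {A₁ A₂ A₃ A₄ : ℝ} (E1 : Ent p q c ζ ℓ x₁ y₁ A₁)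
    (E2 : Ent p q c ζ ℓ x₂ y₂ A₂) (E3 : Ent p q c ζ ℓ x₃ y₃ A₃) (E4 : Ent p q c ζ ℓ x₄ y₄ A₄)
    (hA : A₁ * A₄ = A₂ * A₃) :
    x₁ * x₄ = x₂ * x₃ ∧ x₁ * y₄ + y₁ * x₄ = x₂ * y₃ + y₂ * x₃ ∧ y₁ * y₄ = y₂ * y₃ := by
  by_contra hcon
  have hF : |wt p q x₁ y₁ * wt p q x₄ y₄ - wt p q x₂ y₂ * wt p q x₃ y₃| ≤ 12 * ζ * ℓ := by
    have e : wt p q x₁ y₁ * wt p q x₄ y₄ - wt p q x₂ y₂ * wt p q x₃ y₃ =
        (wt p q x₁ y₁ - A₁) * wt p q x₄ y₄ + A₁ * (wt p q x₄ y₄ - A₄) +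
        -((wt p q x₂ y₂ - A₂) * wt p q x₃ y₃) + -(A₂ * (wt p q x₃ y₃ - A₃)) := by
      linear_combination hA
    rw [e]
    have t1 : |(wt p q x₁ y₁ - A₁) * wt p q x₄ y₄| ≤ 2 * ζ * (2 * ℓ) := by
      rw [abs_mul, abs_of_pos E4.pos]
      exact mul_le_mul (E1.close hζ hζ1) (E4.wt_le hζ hζ1 hℓ) E4.pos.le (by linarith)
    have t2 : |A₁ * (wt p q x₄ y₄ - A₄)| ≤ ℓ * (2 * ζ) := by
      rw [abs_mul, abs_of_pos E1.A_pos]
      exact mul_le_mul E1.le (E4.close hζ hζ1) (abs_nonneg _) (by linarith)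
    have t3 : |-((wt p q x₂ y₂ - A₂) * wt p q x₃ y₃)| ≤ 2 * ζ * (2 * ℓ) := by
      rw [abs_neg, abs_mul, abs_of_pos E3.pos]
      exact mul_le_mul (E2.close hζ hζ1) (E3.wt_le hζ hζ1 hℓ) E3.pos.le (by linarith)
    have t4 : |-(A₂ * (wt p q x₃ y₃ - A₃))| ≤ ℓ * (2 * ζ) := by
      rw [abs_neg, abs_mul, abs_of_pos E2.A_pos]
      exact mul_le_mul E2.le (E3.close hζ hζ1) (abs_nonneg _) (by linarith)
    have s1 := abs_add_le ((wt p q x₁ y₁ - A₁) * wt p q x₄ y₄ + A₁ * (wt p q x₄ y₄ - A₄) +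
        -((wt p q x₂ y₂ - A₂) * wt p q x₃ y₃)) (-(A₂ * (wt p q x₃ y₃ - A₃)))
    have s2 := abs_add_le ((wt p q x₁ y₁ - A₁) * wt p q x₄ y₄ + A₁ * (wt p q x₄ y₄ - A₄))
        (-((wt p q x₂ y₂ - A₂) * wt p q x₃ y₃))
    have s3 := abs_add_le ((wt p q x₁ y₁ - A₁) * wt p q x₄ y₄) (A₁ * (wt p q x₄ y₄ - A₄))
    nlinarith
  have X1 := E1.x_le S hζ hζ1 hℓ
  have X2 := E2.x_le S hζ hζ1 hℓ
  have X3 := E3.x_le S hζ hζ1 hℓ
  have X4 := E4.x_le S hζ hζ1 hℓ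
  have Y1 := E1.y_le S hζ hζ1 hℓ
  have Y2 := E2.y_le S hζ hζ1 hℓ
  have Y3 := E3.y_le S hζ hζ1 hℓ
  have Y4 := E4.y_le S hζ hζ1 hℓ
  have prod : ∀ m n : ℕ, (m:ℝ) ≤ 4 * ℓ → (n:ℝ) ≤ 4 * ℓ → 0 ≤ (m:ℝ) * n ∧ (m:ℝ) * n ≤ 16 * ℓ ^ 2 := by
    intro m n hm hn
    have hm0 : (0:ℝ) ≤ m := Nat.cast_nonneg _
    have hn0 : (0:ℝ) ≤ n := Nat.cast_nonneg _
    refine ⟨mul_nonneg hm0 hn0, ?_⟩
    have := mul_le_mul hm hn hn0 (by linarith)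
    linarith
  have hform := S.form (a := (x₁:ℤ) * x₄ - x₂ * x₃)
    (b := (x₁:ℤ) * y₄ + y₁ * x₄ - (x₂ * y₃ + y₂ * x₃)) (c := (y₁:ℤ) * y₄ - y₂ * y₃)
    (h := 32 * ℓ ^ 2) (by nlinarith) (by linarith)
    (by
      push_cast
      have a1 := prod x₁ x₄ X1 X4
      have a2 := prod x₂ x₃ X2 X3
      rw [abs_le]
      constructor <;> nlinarith)
    (by
      push_cast
      have a1 := prod x₁ y₄ X1 Y4
      have a2 := prod y₁ x₄ Y1 X4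
      have a3 := prod x₂ y₃ X2 Y3
      have a4 := prod y₂ x₃ Y2 X3
      rw [abs_le]
      constructor <;> linarith)
    (by
      push_cast
      have a1 := prod y₁ y₄ Y1 Y4
      have a2 := prod y₂ y₃ Y2 Y3
      rw [abs_le]
      constructor <;> nlinarith)
    (by
      by_contra h
      push Not at h
      obtain ⟨g1, g2, g3⟩ := h
      exact hcon ⟨by exact_mod_cast sub_eq_zero.1 g1, by exact_mod_cast sub_eq_zero.1 g2,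
        by exact_mod_cast sub_eq_zero.1 g3⟩)
  have e2 : (((x₁:ℤ) * x₄ - x₂ * x₃ : ℤ) : ℝ) * log p ^ 2 +
      (((x₁:ℤ) * y₄ + y₁ * x₄ - (x₂ * y₃ + y₂ * x₃) : ℤ) : ℝ) * (log p * log q) +
      (((y₁:ℤ) * y₄ - y₂ * y₃ : ℤ) : ℝ) * log q ^ 2 =
      wt p q x₁ y₁ * wt p q x₄ y₄ - wt p q x₂ y₂ * wt p q x₃ y₃ := by
    unfold wt
    push_cast
    ring
  rw [e2] at hform
  have h5 : 4 * (32 * ℓ ^ 2) * |wt p q x₁ y₁ * wt p q x₄ y₄ - wt p q x₂ y₂ * wt p q x₃ y₃| ≤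
      4 * (32 * ℓ ^ 2) * (12 * ζ * ℓ) := mul_le_mul_of_nonneg_left hF (by positivity)
  nlinarith

lemma wt_mul (s x y : ℕ) : wt p q (s * x) (s * y) = s * wt p q x y := by
  unfold wt
  push_cast
  ring

lemma wt_log (S : Par p q Y L H) (x y : ℕ) : wt p q x y = log ((p ^ x * q ^ y : ℕ) : ℝ) := by
  have hp0 : (0:ℝ) < p := by have := S.hp; positivity
  have hq0 : (0:ℝ) < q := by have := S.hq; positivity
  unfold wt
  push_cast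
  rw [log_mul (by positivity) (by positivity), log_pow, log_pow]

/-- the case in which exactly the largest entry has no shift does not occur -/
lemma no_tie (S : Par p q Y L H) (hc : c ≠ 0) (hζ : 0 < ζ) (hζ1 : ζ ≤ 1 / 8) (hℓ : 1 ≤ ℓ)
    (hH : 128 * ℓ ^ 2 ≤ H) (hbig : 1536 * ζ * ℓ ^ 3 < EE Y L ^ 2)
    {x₁ y₁ x₂ y₂ x₃ y₃ x₄ y₄ : ℕ} {A₁ A₂ A₃ A₄ : ℝ} (E1 : Ent p q c ζ ℓ x₁ y₁ A₁)
    (E2 : Ent p q c ζ ℓ x₂ y₂ A₂) (E3 : Ent p q c ζ ℓ x₃ y₃ A₃) (E4 : Ent p q c ζ ℓ x₄ y₄ A₄)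
    (h1 : 1 ≤ wt p q x₁ y₁) (hz : |c| * exp (-wt p q x₁ y₁) ≤ ζ)
    (h12 : wt p q x₁ y₁ < wt p q x₂ y₂) (h13 : wt p q x₁ y₁ < wt p q x₃ y₃)
    (hψ : psi c (wt p q x₁ y₁) = psi c (wt p q x₂ y₂) + psi c (wt p q x₃ y₃))
    (hd : x₂ * y₁ = y₂ * x₁) (ha : x₁ * x₄ = x₂ * x₃)
    (hb : x₁ * y₄ + y₁ * x₄ = x₂ * y₃ + y₂ * x₃) (hcc : y₁ * y₄ = y₂ * y₃) : False := by
  obtain ⟨s, t, x₀, y₀, x', y', hs, ht, h0, rfl, rfl, rfl, rfl, rfl, rfl, rfl, rfl⟩ :=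
    dir E1.xy_pos E2.xy_pos hd ha hb hcc
  have hEle := S.EE_le
  have hE0 := EE_pos Y L
  have hu : 2 ≤ p ^ x₀ * q ^ y₀ := by
    rcases Nat.eq_zero_or_pos x₀ with h | h
    · have hy : y₀ ≠ 0 := by omega
      have : q ^ 1 ≤ q ^ y₀ := Nat.pow_le_pow_right (by have := S.hq; omega) (by omega)
      rw [h, pow_zero, one_mul]
      rw [pow_one] at this
      exact S.hq.trans this
    · have h2 : p ^ 1 ≤ p ^ x₀ := Nat.pow_le_pow_right (by have := S.hp; omega) h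
      have h3 : 1 ≤ q ^ y₀ := Nat.one_le_pow _ _ (by have := S.hq; omega)
      rw [pow_one] at h2
      calc 2 ≤ p := S.hp
        _ ≤ p ^ x₀ := h2
        _ = p ^ x₀ * 1 := (mul_one _).symm
        _ ≤ p ^ x₀ * q ^ y₀ := Nat.mul_le_mul_left _ h3
  have hEw : EE Y L ≤ wt p q (s * x') (s * y') - wt p q (s * x₀) (s * y₀) := by
    have hlin := S.lin (a := ((s * x' : ℕ) : ℤ) - ((s * x₀ : ℕ) : ℤ))
      (b := ((s * y' : ℕ) : ℤ) - ((s * y₀ : ℕ) : ℤ))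
      (by
        have X1 := E1.x_le S hζ hζ1 hℓ
        have X3 := E3.x_le S hζ hζ1 hℓ
        have n1 : (0:ℝ) ≤ ((s * x₀ : ℕ) : ℝ) := Nat.cast_nonneg _
        have n3 : (0:ℝ) ≤ ((s * x' : ℕ) : ℝ) := Nat.cast_nonneg _
        rw [Int.cast_sub, Int.cast_natCast, Int.cast_natCast, abs_le]
        constructor <;> nlinarith)
      (by
        have X1 := E1.y_le S hζ hζ1 hℓ
        have X3 := E3.y_le S hζ hζ1 hℓ
        have n1 : (0:ℝ) ≤ ((s * y₀ : ℕ) : ℝ) := Nat.cast_nonneg _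
        have n3 : (0:ℝ) ≤ ((s * y' : ℕ) : ℝ) := Nat.cast_nonneg _
        rw [Int.cast_sub, Int.cast_natCast, Int.cast_natCast, abs_le]
        constructor <;> nlinarith)
      (by
        by_contra h
        push Not at h
        obtain ⟨g1, g2⟩ := h
        have g1' : s * x' = s * x₀ := by exact_mod_cast sub_eq_zero.1 g1
        have g2' : s * y' = s * y₀ := by exact_mod_cast sub_eq_zero.1 g2
        rw [g1', g2'] at h13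
        exact lt_irrefl _ h13)
    have e : (((s * x' : ℕ) : ℤ) - ((s * x₀ : ℕ) : ℤ) : ℤ) * log p +
        (((s * y' : ℕ) : ℤ) - ((s * y₀ : ℕ) : ℤ) : ℤ) * log q =
        wt p q (s * x') (s * y') - wt p q (s * x₀) (s * y₀) := by
      unfold wt
      push_cast
      ring
    rw [e, abs_of_pos (by linarith)] at hlin
    exact hlin
  have hq := quant (c := c) (w₁ := wt p q (s * x₀) (s * y₀)) (w₂ := wt p q (t * x₀) (t * y₀))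
    (w₃ := wt p q (s * x') (s * y')) (E := EE Y L) (s := s) (t := t)
    (u := p ^ x₀ * q ^ y₀) (v := p ^ x' * q ^ y') hc h1 (hz.trans hζ1) h12 h13 hψ hs hu
    (by rw [wt_mul, wt_log S x₀ y₀]) (by rw [wt_mul, wt_log S x₀ y₀])
    (by rw [wt_mul, wt_log S x' y']) hE0 hEle hEw
  have h6 : EE Y L ^ 2 ≤ 1 / 2 * EE Y L := by nlinarith
  have h7 : ζ ≤ ζ * ℓ ^ 3 := le_mul_of_one_le_right hζ.le (one_le_pow₀ hℓ)
  nlinarith

theorem main_min (S : Par p q Y L H) (hc : c ≠ 0) (hζ : 0 < ζ) (hζ1 : ζ ≤ 1 / 8) (hℓ : 1 ≤ ℓ)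
    (hH : 128 * ℓ ^ 2 ≤ H) (hbig : 1536 * ζ * ℓ ^ 3 < EE Y L ^ 2)
    {x₁ y₁ x₂ y₂ x₃ y₃ x₄ y₄ : ℕ} {A₁ A₂ A₃ A₄ : ℝ} (E1 : Ent p q c ζ ℓ x₁ y₁ A₁)
    (E2 : Ent p q c ζ ℓ x₂ y₂ A₂) (E3 : Ent p q c ζ ℓ x₃ y₃ A₃) (E4 : Ent p q c ζ ℓ x₄ y₄ A₄)
    (hA : A₁ * A₄ = A₂ * A₃) (h12 : wt p q x₁ y₁ ≤ wt p q x₂ y₂)
    (h13 : wt p q x₁ y₁ ≤ wt p q x₃ y₃) : Dep A₁ A₂ A₃ A₄ := by
  obtain ⟨ha, hb, hcc⟩ := rel S hζ hζ1 hℓ hH hbig E1 E2 E3 E4 hA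
  have hw : wt p q x₁ y₁ * wt p q x₄ y₄ = wt p q x₂ y₂ * wt p q x₃ y₃ := by
    have ha' : (x₁:ℝ) * x₄ = x₂ * x₃ := by exact_mod_cast ha
    have hb' : (x₁:ℝ) * y₄ + y₁ * x₄ = x₂ * y₃ + y₂ * x₃ := by exact_mod_cast hb
    have hc' : (y₁:ℝ) * y₄ = y₂ * y₃ := by exact_mod_cast hcc
    unfold wt
    linear_combination (log p ^ 2) * ha' + (log p * log q) * hb' + (log q ^ 2) * hc'
  -- the two directions
  have hdir : x₂ * y₁ = y₂ * x₁ ∨ x₃ * y₁ = y₃ * x₁ := by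
    have hz : (((x₂:ℤ) * y₁ - y₂ * x₁)) * ((x₃:ℤ) * y₁ - y₃ * x₁) = 0 := by
      have ha' : (x₁:ℤ) * x₄ = x₂ * x₃ := by exact_mod_cast ha
      have hb' : (x₁:ℤ) * y₄ + y₁ * x₄ = x₂ * y₃ + y₂ * x₃ := by exact_mod_cast hb
      have hc' : (y₁:ℤ) * y₄ = y₂ * y₃ := by exact_mod_cast hcc
      linear_combination (-(y₁:ℤ) ^ 2) * ha' + ((x₁:ℤ) * y₁) * hb' - ((x₁:ℤ) ^ 2) * hc'
    rcases mul_eq_zero.1 hz with h | h
    · left; exact_mod_cast sub_eq_zero.1 h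
    · right; exact_mod_cast sub_eq_zero.1 h
  have ha2 : x₁ * x₄ = x₃ * x₂ := by rw [ha, mul_comm]
  have hb2 : x₁ * y₄ + y₁ * x₄ = x₃ * y₂ + y₃ * x₂ := by rw [hb]; ring
  have hc2 : y₁ * y₄ = y₃ * y₂ := by rw [hcc, mul_comm]
  rcases patterns hc E1.pos h12 h13 hw hA E1.isEnt E2.isEnt E3.isEnt E4.isEnt with
    h | h | h | h
  · obtain ⟨a1, a2, a3, a4⟩ := h
    rcases hdir with hd | hd
    · obtain ⟨s, t, x₀, y₀, x', y', hs, ht, h0, rfl, rfl, rfl, rfl, rfl, rfl, rfl, rfl⟩ :=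
        dir E1.xy_pos E2.xy_pos hd ha hb hcc
      refine Or.inl ⟨t, s, ht, hs, ?_, ?_⟩
      · rw [a1, a2, wt_mul, wt_mul]; ring
      · rw [a3, a4, wt_mul, wt_mul]; ring
    · obtain ⟨s, t, x₀, y₀, x', y', hs, ht, h0, rfl, rfl, rfl, rfl, rfl, rfl, rfl, rfl⟩ :=
        dir E1.xy_pos E3.xy_pos hd ha2 hb2 hc2
      refine Or.inr ⟨t, s, ht, hs, ?_, ?_⟩
      · rw [a1, a3, wt_mul, wt_mul]; ring
      · rw [a2, a4, wt_mul, wt_mul]; ring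
  · refine Or.inl ⟨1, 1, one_pos, one_pos, ?_, ?_⟩
    · rw [h.1]
    · rw [h.2]
  · refine Or.inr ⟨1, 1, one_pos, one_pos, ?_, ?_⟩
    · rw [h.1]
    · rw [h.2]
  · exfalso
    obtain ⟨g12, g13, hdom, hA1, hψ⟩ := h
    rcases E1.alt with h | ⟨h1, -, -, hz⟩
    · rw [hA1] at h
      have h2 := congrArg exp h
      rw [exp_log (by linarith)] at h2
      exact hc (by linarith)
    · rcases hdir with hd | hd
      · exact no_tie S hc hζ hζ1 hℓ hH hbig E1 E2 E3 E4 h1 hz g12 g13 hψ hd ha hb hcc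
      · exact no_tie S hc hζ hζ1 hℓ hH hbig E1 E3 E2 E4 h1 hz g13 g12 (by rw [hψ, add_comm]) hd ha2
          hb2 hc2

/-- **Main theorem on arrays of logarithms.** -/
theorem main (S : Par p q Y L H) (hc : c ≠ 0) (hζ : 0 < ζ) (hζ1 : ζ ≤ 1 / 8) (hℓ : 1 ≤ ℓ)
    (hH : 128 * ℓ ^ 2 ≤ H) (hbig : 1536 * ζ * ℓ ^ 3 < EE Y L ^ 2)
    {x₁ y₁ x₂ y₂ x₃ y₃ x₄ y₄ : ℕ} {A₁ A₂ A₃ A₄ : ℝ} (E1 : Ent p q c ζ ℓ x₁ y₁ A₁)
    (E2 : Ent p q c ζ ℓ x₂ y₂ A₂) (E3 : Ent p q c ζ ℓ x₃ y₃ A₃) (E4 : Ent p q c ζ ℓ x₄ y₄ A₄)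
    (hA : A₁ * A₄ = A₂ * A₃) : Dep A₁ A₂ A₃ A₄ := by
  have M := @main_min p q Y L H c ζ ℓ S hc hζ hζ1 hℓ hH hbig
  rcases le_total (wt p q x₁ y₁) (wt p q x₂ y₂) with h12 | h12
  · rcases le_total (wt p q x₃ y₃) (wt p q x₄ y₄) with h34 | h34
    · rcases le_total (wt p q x₁ y₁) (wt p q x₃ y₃) with h13 | h13
      · exact M E1 E2 E3 E4 hA h12 h13
      · exact (M E3 E4 E1 E2 (by linarith) h34 h13).rows
    · rcases le_total (wt p q x₁ y₁) (wt p q x₃ y₃) with h13 | h13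
      · exact M E1 E2 E3 E4 hA h12 h13
      · exact (M E4 E3 E2 E1 (by linarith) h34 (by linarith)).cols.rows
  · rcases le_total (wt p q x₃ y₃) (wt p q x₄ y₄) with h34 | h34
    · rcases le_total (wt p q x₂ y₂) (wt p q x₄ y₄) with h24 | h24
      · exact (M E2 E1 E4 E3 (by linarith) h12 h24).cols
      · exact (M E3 E4 E1 E2 (by linarith) h34 (by linarith)).rows
    · rcases le_total (wt p q x₂ y₂) (wt p q x₄ y₄) with h24 | h24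
      · exact (M E2 E1 E4 E3 (by linarith) h12 h24).cols
      · exact (M E4 E3 E2 E1 (by linarith) h34 h24).cols.rows

end

end Pool.Agent.K4H73.QF
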