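import Mathlib
import Pool.Agent.K4H73.QF.Main

/-!
# The choice of the parameters
-/

set_option autoImplicit false

namespace Pool.Agent.K4H73.QF

open Real Pool.Agent.K4H73.NP

theorem exists_par {p q : ℕ} (hp : 2 ≤ p) (hq : 2 ≤ q) (hind : ∀ m n : ℕ, p ^ m = q ^ n → m = 0) :
    ∃ κ : ℝ, 0 < κ ∧ ∃ r₀ : ℝ, 2 ≤ r₀ ∧ ∀ r : ℝ, r₀ ≤ r → ∃ (Y L : ℕ) (H : ℝ), Par p q Y L H ∧
      128 * exp (κ * r) ^ 2 ≤ H ∧
      1536 * (2 * exp (-(3 / 4 * r ^ 2))) * exp (κ * r) ^ 3 < EE Y L ^ 2 := by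
  obtain ⟨Y, hYd⟩ : ∃ Y : ℕ, Y = ⌈log p⌉₊ + ⌈log q⌉₊ + 1 := ⟨_, rfl⟩
  have hY1 : 1 ≤ Y := by omega
  have hpY : log p ≤ Y := (Nat.le_ceil _).trans (by exact_mod_cast (by omega : ⌈log p⌉₊ ≤ Y))
  have hqY : log q ≤ Y := (Nat.le_ceil _).trans (by exact_mod_cast (by omega : ⌈log q⌉₊ ≤ Y))
  have hYr : (1:ℝ) ≤ Y := by exact_mod_cast hY1
  obtain ⟨μ, hμ⟩ : ∃ μ : ℝ, μ = 1 / (409 * Y) := ⟨_, rfl⟩
  have hμ0 : 0 < μ := by rw [hμ]; positivity
  have hμ1 : μ ≤ 1 := by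
    rw [hμ, div_le_one (by positivity)]
    linarith
  have hYμ : (Y:ℝ) * μ = 1 / 409 := by rw [hμ]; field_simp
  refine ⟨μ / 256, by positivity, 9 + 2 / μ + 128 * (1 + |log (11648 / μ)|) / μ, ?_, ?_⟩
  · have h1 : 0 < 2 / μ := by positivity
    have h2 : 0 < 128 * (1 + |log (11648 / μ)|) / μ := by positivity
    linarith
  intro r hr
  have h1 : 0 < 2 / μ := by positivity
  have h2 : 0 < 128 * (1 + |log (11648 / μ)|) / μ := by positivity
  have hr9 : 9 ≤ r := by linarith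
  have hr0 : 0 < r := by linarith
  have hrμ2 : 2 ≤ r * μ := by
    have h3 : 2 / μ ≤ r := by linarith
    rwa [div_le_iff₀ hμ0] at h3
  have hrμ3 : 16 + 16 * log (11648 / μ) ≤ r * μ / 8 := by
    have h3 : 128 * (1 + |log (11648 / μ)|) / μ ≤ r := by linarith
    rw [div_le_iff₀ hμ0] at h3
    have := le_abs_self (log (11648 / μ))
    linarith
  have hlogr : 16 * log (182 * r) ≤ r * μ / 4 + 16 * log (11648 / μ) := by
    have h3 : 182 * r = (11648 / μ) * (μ / 64 * r) := by field_simp; norm_num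
    rw [h3, log_mul (by positivity) (by positivity)]
    have h4 := log_le_sub_one_of_pos (by positivity : 0 < μ / 64 * r)
    linarith
  obtain ⟨L, hLd⟩ : ∃ L : ℕ, L = ⌊r * μ⌋₊ := ⟨_, rfl⟩
  have hLle : (L:ℝ) ≤ r * μ := by rw [hLd]; exact Nat.floor_le (by positivity)
  have hLge : r * μ / 2 ≤ L := by
    have := Nat.lt_floor_add_one (r * μ)
    rw [← hLd] at this
    linarith
  have hL1 : (1:ℝ) ≤ L := by linarith
  have hYL : (Y:ℝ) * L ≤ r / 409 := by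
    calc (Y:ℝ) * L ≤ Y * (r * μ) := mul_le_mul_of_nonneg_left hLle (by linarith)
      _ = r * (Y * μ) := by ring
      _ = r / 409 := by rw [hYμ]; ring
  have hκr : 0 < μ / 256 * r := by positivity
  obtain ⟨ℓ, hℓ⟩ : ∃ ℓ : ℝ, ℓ = exp (μ / 256 * r) := ⟨_, rfl⟩
  have hℓ1 : 1 ≤ ℓ := by rw [hℓ]; exact one_le_exp hκr.le
  rw [← hℓ]
  refine ⟨Y, L, 128 * ℓ ^ 2, ⟨hp, hq, hY1, by exact_mod_cast hL1, hpY, hqY, ?_, hind, ?_⟩, le_rfl,
    ?_⟩
  · nlinarith
  · have hYL0 : (0:ℝ) < Y * L := by positivity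
    have h3 : log (290 * Y * L * (2 * (128 * ℓ ^ 2))) ≤ log (182 * r) + 2 * (μ / 256 * r) := by
      have h4 : log (182 * r) + 2 * (μ / 256 * r) = log (182 * r * ℓ ^ 2) := by
        rw [log_mul (by positivity : (182 * r : ℝ) ≠ 0) (by positivity : ℓ ^ 2 ≠ 0), log_pow, hℓ,
          log_exp]
        push_cast
        ring
      rw [h4]
      apply log_le_log (by positivity)
      have h5 : 290 * Y * L * (2 * (128 * ℓ ^ 2)) = 74240 * (Y * L) * ℓ ^ 2 := by ring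
      rw [h5]
      apply mul_le_mul_of_nonneg_right _ (by positivity)
      linarith
    have h6 : 32 * (μ / 256 * r) = r * μ / 8 := by ring
    linarith
  · have h3 : EE Y L ^ 2 = exp (-(41760 * (Y * L) ^ 2)) := by
      unfold EE
      rw [← exp_nat_mul]
      congr 1
      push_cast
      ring
    have h4 : exp (-(r ^ 2 / 4)) ≤ EE Y L ^ 2 := by
      rw [h3]
      apply exp_le_exp.2
      have h5 : ((Y:ℝ) * L) ^ 2 ≤ (r / 409) ^ 2 := pow_le_pow_left₀ (by positivity) hYL 2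
      nlinarith [sq_nonneg r]
    refine lt_of_lt_of_le ?_ h4
    have h5 : 1536 * (2 * exp (-(3 / 4 * r ^ 2))) * ℓ ^ 3 =
        3072 * exp (-(3 / 4 * r ^ 2) + 3 * (μ / 256 * r)) := by
      rw [exp_add, hℓ, ← exp_nat_mul]
      push_cast
      ring
    rw [h5]
    have h6 : (3072:ℝ) < exp 9 := by
      have h7 : (2.7182818283:ℝ) ^ 9 ≤ exp 1 ^ 9 :=
        pow_le_pow_left₀ (by norm_num) exp_one_gt_d9.le _
      rw [← exp_nat_mul] at h7
      norm_num at h7 ⊢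
      linarith
    calc 3072 * exp (-(3 / 4 * r ^ 2) + 3 * (μ / 256 * r)) <
        exp 9 * exp (-(3 / 4 * r ^ 2) + 3 * (μ / 256 * r)) :=
          mul_lt_mul_of_pos_right h6 (exp_pos _)
      _ = exp (9 + (-(3 / 4 * r ^ 2) + 3 * (μ / 256 * r))) := by rw [← exp_add]
      _ ≤ exp (-(r ^ 2 / 4)) := by
          apply exp_le_exp.2
          have h8 : 3 * (μ / 256 * r) ≤ r := by nlinarith
          nlinarith

/-- the logarithm of an entry -/
lemma mkEnt {p q : ℕ} (hp : 2 ≤ p) (hq : 2 ≤ q) {κ r : ℝ} (hr : 2 ≤ r) {a : ℕ} {c : ℤ} {c' : ℝ}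
    (hc' : c ≠ 0 → c' = c) (ha : 2 ≤ a) (hc4 : |(c:ℝ)| ≤ exp (r ^ 2 / 4))
    (haℓ : log (log a) ≤ κ * r)
    (h : (∃ x y : ℕ, a = p ^ x * q ^ y) ∨
      (exp (r ^ 2) ≤ a ∧ ∃ x y : ℕ, (a:ℤ) = p ^ x * q ^ y + c)) :
    ∃ x y : ℕ, Ent p q c' (2 * exp (-(3 / 4 * r ^ 2))) (exp (κ * r)) x y (log a) := by
  have hp0 : (0:ℝ) < p := by positivity
  have hq0 : (0:ℝ) < q := by positivity
  have hwt : ∀ x y : ℕ, wt p q x y = log ((p ^ x * q ^ y : ℕ) : ℝ) := fun x y => by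
    unfold wt
    push_cast
    rw [log_mul (by positivity) (by positivity), log_pow, log_pow]
  have har : (2:ℝ) ≤ a := by exact_mod_cast ha
  have hla : 0 < log (a:ℝ) := log_pos (by linarith)
  have hle : log (a:ℝ) ≤ exp (κ * r) := by
    rw [← exp_log hla]
    exact exp_le_exp.2 haℓ
  have exact_case : ∀ x y : ℕ, a = p ^ x * q ^ y →
      Ent p q c' (2 * exp (-(3 / 4 * r ^ 2))) (exp (κ * r)) x y (log a) := by
    intro x y hxy
    refine ⟨by rw [hwt, ← hxy]; exact hla, hle, Or.inl (by rw [hwt, ← hxy])⟩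
  rcases h with ⟨x, y, hxy⟩ | ⟨hN, x, y, hxy⟩
  · exact ⟨x, y, exact_case x y hxy⟩
  · by_cases hc0 : c = 0
    · rw [hc0, add_zero] at hxy
      exact ⟨x, y, exact_case x y (by exact_mod_cast hxy)⟩
    · refine ⟨x, y, ?_⟩
      rw [hc' hc0]
      obtain ⟨n, hn⟩ : ∃ n : ℕ, n = p ^ x * q ^ y := ⟨_, rfl⟩
      have hn1 : (a:ℤ) = n + c := by rw [hn]; push_cast; exact hxy
      have hn2 : (a:ℝ) = n + c := by exact_mod_cast hn1
      have hr4 : (4:ℝ) ≤ r ^ 2 := by nlinarith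
      have e16 : (16:ℝ) ≤ exp (3 / 4 * r ^ 2) := by
        have h1 : exp 3 ≤ exp (3 / 4 * r ^ 2) := exp_le_exp.2 (by linarith)
        have h7 : (2.7182818283:ℝ) ^ 3 ≤ exp 1 ^ 3 :=
          pow_le_pow_left₀ (by norm_num) exp_one_gt_d9.le _
        rw [← exp_nat_mul] at h7
        norm_num at h7
        linarith
      have hsplit : exp (r ^ 2) = exp (r ^ 2 / 4) * exp (3 / 4 * r ^ 2) := by
        rw [← exp_add]; congr 1; ring
      have he0 : 0 < exp (r ^ 2 / 4) := exp_pos _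
      have he1 : 1 ≤ exp (r ^ 2 / 4) := one_le_exp (by positivity)
      have hnge : exp (r ^ 2) / 2 ≤ n := by
        have h1 : exp (r ^ 2) - exp (r ^ 2 / 4) ≤ n := by
          have := (abs_le.1 hc4).2
          linarith
        have h2 : 16 * exp (r ^ 2 / 4) ≤ exp (r ^ 2) := by rw [hsplit]; nlinarith
        linarith
      have hn8 : (8:ℝ) ≤ n := by
        have : 16 ≤ exp (r ^ 2) := by rw [hsplit]; nlinarith
        linarith
      have hw : wt p q x y = log n := by rw [hwt, hn]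
      have hn0 : (0:ℝ) < n := by linarith
      refine ⟨by rw [hw]; exact log_pos (by linarith), hle, Or.inr ⟨?_, ?_, ?_, ?_⟩⟩
      · rw [hw, le_log_iff_exp_le hn0]
        have := exp_one_lt_d9
        linarith
      · rw [hw, exp_log hn0]; linarith
      · rw [hw, exp_log hn0, hn2]
      · rw [hw, exp_neg, exp_log hn0, ← div_eq_mul_inv, div_le_iff₀ hn0]
        have h3 : exp (-(3 / 4 * r ^ 2)) * exp (r ^ 2) = exp (r ^ 2 / 4) := by
          rw [← exp_add]; congr 1; ring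
        have h4 : 0 < exp (-(3 / 4 * r ^ 2)) := exp_pos _
        calc |(c:ℝ)| ≤ exp (r ^ 2 / 4) := hc4
          _ = 2 * exp (-(3 / 4 * r ^ 2)) * (exp (r ^ 2) / 2) := by rw [← h3]; ring
          _ ≤ 2 * exp (-(3 / 4 * r ^ 2)) * n := mul_le_mul_of_nonneg_left hnge (by positivity)

end Pool.Agent.K4H73.QF
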